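import Pool.Agent.R769.TU.Kappa

open Finset Equiv
open scoped BigOperators

namespace R769.TU

theorem expect_cons {Q : Type*} [Fintype Q] (w : ℕ) (F : (Fin (w + 1) → Q) → ℝ) :
    𝔼 k, F k = 𝔼 q : Q, 𝔼 k' : Fin w → Q, F (Fin.cons q k') := by
  rw [← expect_product', univ_product_univ]
  symm
  exact Fintype.expect_equiv (Fin.consEquiv (fun _ => Q)) _ _ (fun _ => rfl)

theorem tensor {Q : Type*} [Fintype Q] [DecidableEq Q] (κ : ℕ) (hκ : 1 ≤ κ)
    (hQ : 2 ≤ Fintype.card Q)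
    (hkey : ∀ y : ℝ, 0 ≤ y → y ≤ 1 →
      (1 - (1 - (1 / Fintype.card Q : ℝ)) * y + (1 - (1 / Fintype.card Q : ℝ)) ^ 2 * y ^ 2) ^ κ ≤
      1 / Fintype.card Q + (1 - 1 / Fintype.card Q) * (1 - y) ^ κ) :
    ∀ (w : ℕ) (F1 F2 : (Fin w → Q) → ℝ) (_ : ∀ k, 0 ≤ F1 k ∧ F1 k ≤ 1)
      (_ : ∀ k, 0 ≤ F2 k ∧ F2 k ≤ 1) (top : Fin w → Q)
      (_ : ∀ k i, F1 k ≤ F1 (Function.update k i (top i)))
      (_ : ∀ k i, F2 k ≤ F2 (Function.update k i (top i))),
      ((𝔼 k, F1 k) * (𝔼 k, F2 k)) ^ κ ≤ 𝔼 k, F1 k * F2 k := by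
  intro w
  have : Nonempty Q := Fintype.card_pos_iff.1 (by omega)
  induction w with
  | zero =>
    intro F1 F2 h1 h2 top ht1 ht2
    rw [Fintype.expect_eq_sum_div_card, Fintype.expect_eq_sum_div_card,
      Fintype.expect_eq_sum_div_card]
    simp only [univ_unique, sum_singleton, Fintype.card_unique, Nat.cast_one, div_one]
    exact pow_le_of_le_one (mul_nonneg (h1 _).1 (h2 _).1)
      (mul_le_one₀ (h1 _).2 (h2 _).1 (h2 _).2) (by omega)
  | succ w ih =>
    intro F1 F2 h1 h2 top ht1 ht2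
    rw [expect_cons, expect_cons, expect_cons]
    have hstep : ∀ q : Q,
        ((𝔼 k' : Fin w → Q, F1 (Fin.cons q k')) * (𝔼 k' : Fin w → Q, F2 (Fin.cons q k'))) ^ κ ≤
        𝔼 k' : Fin w → Q, F1 (Fin.cons q k') * F2 (Fin.cons q k') := by
      intro q
      refine ih (fun k' => F1 (Fin.cons q k')) (fun k' => F2 (Fin.cons q k'))
        (fun k' => h1 _) (fun k' => h2 _) (fun i => top i.succ) (fun k' i => ?_) (fun k' i => ?_)
      · change F1 (Fin.cons q k') ≤ F1 (Fin.cons q (Function.update k' i (top i.succ)))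
        rw [Fin.cons_update]
        exact ht1 _ _
      · change F2 (Fin.cons q k') ≤ F2 (Fin.cons q (Function.update k' i (top i.succ)))
        rw [Fin.cons_update]
        exact ht2 _ _
    refine le_trans ?_ (expect_le_expect fun q _ => hstep q)
    refine kappa_two κ hκ hQ hkey (fun q => 𝔼 k' : Fin w → Q, F1 (Fin.cons q k'))
      (fun q => 𝔼 k' : Fin w → Q, F2 (Fin.cons q k')) (fun q => expect_nonneg fun k' _ => (h1 _).1)
      (fun q => expect_nonneg fun k' _ => (h2 _).1) (top 0) (fun q => ?_) (fun q => ?_)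
    · refine expect_le_expect fun k' _ => ?_
      have := ht1 (Fin.cons q k') 0
      rwa [Fin.update_cons_zero] at this
    · refine expect_le_expect fun k' _ => ?_
      have := ht2 (Fin.cons q k') 0
      rwa [Fin.update_cons_zero] at this

/-- Sorting by adjacent swaps. -/
theorem bubble {n m : ℕ} (x : Fin m → Fin n) (hx : Function.Injective x)
    (Φ : Perm (Fin m) → ℝ)
    (hΦ : ∀ σ : Perm (Fin m), ∀ c c' : Fin m, (c' : ℕ) = c + 1 → x (σ⁻¹ c') < x (σ⁻¹ c) →
      Φ σ ≤ Φ (swap c' c * σ)) (σ : Perm (Fin m)) : Φ σ ≤ Φ ((Tuple.sort x)⁻¹) := by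
  classical
  set C : Finset (Perm (Fin m)) := univ.filter (fun τ => Φ σ ≤ Φ τ) with hC
  have hCne : C.Nonempty := ⟨σ, by simp [hC]⟩
  set W : Perm (Fin m) → ℤ := fun τ => ∑ c : Fin m, ((c : ℕ) : ℤ) * ((x (τ⁻¹ c) : ℕ) : ℤ)
    with hW
  obtain ⟨τ, hτC, hτ⟩ := exists_max_image C W hCne
  have hτC' : Φ σ ≤ Φ τ := by
    rw [hC, mem_filter] at hτC
    exact hτC.2
  have hmono : Monotone (x ∘ (τ⁻¹ : Perm (Fin m))) := by
    have hadj : ∀ c c' : Fin m, (c' : ℕ) = c + 1 → x (τ⁻¹ c) ≤ x (τ⁻¹ c') := by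
      intro c c' hcc
      by_contra hlt
      push Not at hlt
      have h1 := hΦ τ c c' hcc hlt
      have h2 : swap c' c * τ ∈ C := by
        rw [hC, mem_filter]
        exact ⟨mem_univ _, hτC'.trans h1⟩
      have h3 := hτ _ h2
      have hne : c' ≠ c := by
        rintro rfl
        omega
      have h4 : W (swap c' c * τ) - W τ =
          (((c' : ℕ) : ℤ) - ((c : ℕ) : ℤ)) * (((x (τ⁻¹ c) : ℕ) : ℤ) - ((x (τ⁻¹ c') : ℕ) : ℤ)) := by
        simp only [hW]
        rw [← sum_sub_distrib, Fintype.sum_eq_add c' c hne]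
        · simp only [mul_inv_rev, swap_inv, Perm.mul_apply, swap_apply_left, swap_apply_right]
          ring
        · rintro d ⟨h5, h6⟩
          simp only [mul_inv_rev, swap_inv, Perm.mul_apply]
          rw [swap_apply_of_ne_of_ne h5 h6]
          ring
      have h5 : (0 : ℤ) < (((c' : ℕ) : ℤ) - ((c : ℕ) : ℤ)) *
          (((x (τ⁻¹ c) : ℕ) : ℤ) - ((x (τ⁻¹ c') : ℕ) : ℤ)) := by
        apply mul_pos
        · rw [hcc]; push_cast; linarith
        · have : ((x (τ⁻¹ c') : ℕ) : ℤ) < ((x (τ⁻¹ c) : ℕ) : ℤ) := by exact_mod_cast hlt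
          linarith
      linarith
    rcases m with _ | m
    · intro a
      exact a.elim0
    · rw [Fin.monotone_iff_le_succ]
      intro i
      exact hadj _ _ (by simp)
  have huniq := Tuple.unique_monotone hmono (Tuple.monotone_sort x)
  have h1 : τ⁻¹ = Tuple.sort x := by
    ext i
    have := congrFun huniq i
    simp only [Function.comp] at this
    rw [hx this]
  rw [← h1, inv_inv]
  exact hτC'

end R769.TU
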