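import Pool.Agent.R769.TU.Poinc
import Pool.Agent.R769.TU.Tensor

open Finset Equiv
open scoped BigOperators

namespace R769.TU

variable {n m w : ℕ}

/-- the permutation of `Fin m × Fin w` acting on the fibre over `g` by `k g` -/
def sig (k : Fin w → Perm (Fin m)) : Perm (Fin m × Fin w) where
  toFun x := (k x.2 x.1, x.2)
  invFun x := ((k x.2).symm x.1, x.2)
  left_inv x := by simp
  right_inv x := by simp

theorem sig_apply (k : Fin w → Perm (Fin m)) (c : Fin m) (g : Fin w) :
    sig k (c, g) = (k g c, g) := rfl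

/-- the action of `k` on the positions -/
noncomputable def act (e : (Fin m × Fin w) ↪ Fin n) (k : Fin w → Perm (Fin m)) : Perm (Fin n) :=
  (sig k).viaEmbedding e

theorem act_apply (e : (Fin m × Fin w) ↪ Fin n) (k : Fin w → Perm (Fin m)) (c : Fin m)
    (g : Fin w) : act e k (e (c, g)) = e (k g c, g) := by
  unfold act
  rw [Perm.viaEmbedding_apply, sig_apply]

theorem act_apply_not (e : (Fin m × Fin w) ↪ Fin n) (k : Fin w → Perm (Fin m)) (p : Fin n)
    (hp : p ∉ Set.range e) : act e k p = p :=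
  Perm.viaEmbedding_apply_of_notMem _ _ _ hp

theorem act_mul (e : (Fin m × Fin w) ↪ Fin n) (k k' : Fin w → Perm (Fin m)) :
    act e (k * k') = act e k * act e k' := by
  ext p
  by_cases hp : p ∈ Set.range e
  · obtain ⟨⟨c, g⟩, rfl⟩ := hp
    rw [Perm.mul_apply, act_apply, act_apply, act_apply]
    rfl
  · rw [Perm.mul_apply, act_apply_not e k' p hp, act_apply_not e k p hp, act_apply_not e _ p hp]

theorem act_swap (e : (Fin m × Fin w) ↪ Fin n) (g : Fin w) (c d : Fin m) :
    act e (Pi.mulSingle g (swap c d)) = swap (e (c, g)) (e (d, g)) := by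
  ext p
  congr 1
  by_cases hp : p ∈ Set.range e
  · obtain ⟨⟨c', g'⟩, rfl⟩ := hp
    rw [act_apply]
    by_cases hg : g' = g
    · subst hg
      rw [Pi.mulSingle_eq_same]
      have h1 := Function.Embedding.swap_apply e (c, g') (d, g') (c', g')
      rw [h1]
      congr 1
      rw [swap_apply_def, swap_apply_def]
      simp only [Prod.mk.injEq, and_true]
      split_ifs <;> rfl
    · rw [Pi.mulSingle_eq_of_ne hg]
      rw [swap_apply_of_ne_of_ne]
      · rfl
      · intro h
        have := e.injective h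
        simp only [Prod.mk.injEq] at this
        exact hg this.2
      · intro h
        have := e.injective h
        simp only [Prod.mk.injEq] at this
        exact hg this.2
  · rw [act_apply_not e _ p hp, swap_apply_of_ne_of_ne]
    · rintro rfl; exact hp ⟨_, rfl⟩
    · rintro rfl; exact hp ⟨_, rfl⟩

/-- averaging over the groups -/
noncomputable def U (e : (Fin m × Fin w) ↪ Fin n) (a : Perm (Fin n) → ℝ) (X : Perm (Fin n)) : ℝ :=
  𝔼 k : Fin w → Perm (Fin m), a (act e k * X)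

theorem expect_U (e : (Fin m × Fin w) ↪ Fin n) (a : Perm (Fin n) → ℝ) :
    𝔼 X, U e a X = 𝔼 X, a X := by
  unfold U
  rw [expect_comm]
  rw [expect_congr rfl (fun k _ => expect_mulLeft (act e k) a)]
  exact Fintype.expect_const _

/-- monotonicity in one group: a common maximum. -/
theorem act_top (e : (Fin m × Fin w) ↪ Fin n) (ω : Fin n → Fin m)
    (hω : ∀ c g, ω (e (c, g)) = c) (a : Perm (Fin n) → ℝ)
    (ha : ∀ X : Perm (Fin n), ∀ u v, u < v → (ω (X u) : ℕ) = ω (X v) + 1 →
      a X ≤ a (X * swap u v)) (X : Perm (Fin n)) (k : Fin w → Perm (Fin m)) (g : Fin w) :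
    a (act e k * X) ≤
      a (act e (Function.update k g ((Tuple.sort fun c => X⁻¹ (e (c, g)))⁻¹)) * X) := by
  have hb := bubble (fun c => X⁻¹ (e (c, g)))
    (fun c c' h => by
      have h1 := X⁻¹.injective h
      have h2 := e.injective h1
      simpa using h2)
    (fun σ => a (act e (Function.update k g σ) * X)) ?_ (k g)
  · simpa using hb
  · intro σ c c' hcc hlt
    set k' := Function.update k g σ with hk'
    have hk'g : k' g = σ := by simp [hk']
    have h1 := ha (act e k' * X) (X⁻¹ (e (σ⁻¹ c', g))) (X⁻¹ (e (σ⁻¹ c, g))) hlt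
    have h2 : (act e k' * X) (X⁻¹ (e (σ⁻¹ c', g))) = e (c', g) := by
      rw [Perm.mul_apply, ainv, act_apply, hk'g, ainv]
    have h3 : (act e k' * X) (X⁻¹ (e (σ⁻¹ c, g))) = e (c, g) := by
      rw [Perm.mul_apply, ainv, act_apply, hk'g, ainv]
    rw [h2, h3, hω, hω] at h1
    refine (h1 hcc).trans (le_of_eq ?_)
    congr 1
    rw [Equiv.mul_swap_eq_swap_mul, h2, h3, ← act_swap, ← mul_assoc, ← act_mul]
    congr 2
    funext g'
    by_cases hg : g' = g
    · subst hg
      simp [hk']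
    · simp [hk', hg]

/-- translation invariance in the group `Fin w → Perm (Fin m)` -/
theorem expect_single (i : Fin w) (τ : Perm (Fin m)) (F : (Fin w → Perm (Fin m)) → ℝ) :
    𝔼 k : Fin w → Perm (Fin m), F (Pi.mulSingle i τ * k) = 𝔼 k, F k :=
  Fintype.expect_equiv (Equiv.mulLeft (Pi.mulSingle i τ)) _ _ (fun _ => rfl)

theorem mean0 (hm : 0 < m) (i : Fin w) (c : Fin m) (θ : (Fin w → Perm (Fin m)) → Fin m)
    (ψ : (Fin w → Perm (Fin m)) → ℝ)
    (hθ : ∀ k τ, θ (Pi.mulSingle i τ * k) = θ k) (hψ : ∀ k τ, ψ (Pi.mulSingle i τ * k) = ψ k) :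
    𝔼 k : Fin w → Perm (Fin m), ψ k * (1 - m * (if k i c = θ k then (1 : ℝ) else 0)) = 0 := by
  have : NeZero m := ⟨by omega⟩
  have h1 : ∀ s : Fin m, 𝔼 k : Fin w → Perm (Fin m), ψ k * (if k i c = θ k then (1 : ℝ) else 0) =
      𝔼 k : Fin w → Perm (Fin m), ψ k * (if k i c + s = θ k then (1 : ℝ) else 0) := by
    intro s
    rw [← expect_single i (Equiv.addRight s)]
    refine expect_congr rfl fun k _ => ?_
    rw [hψ, hθ]
    congr 1
    simp
  have h2 : (m : ℝ) * 𝔼 k : Fin w → Perm (Fin m), ψ k * (if k i c = θ k then (1 : ℝ) else 0) =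
      𝔼 k : Fin w → Perm (Fin m), ψ k := by
    have h3 : ∑ s : Fin m, 𝔼 k : Fin w → Perm (Fin m),
        ψ k * (if k i c = θ k then (1 : ℝ) else 0) =
        𝔼 k : Fin w → Perm (Fin m), ψ k := by
      rw [sum_congr rfl (fun s _ => h1 s), ← expect_sum_comm]
      refine expect_congr rfl fun k _ => ?_
      rw [← mul_sum]
      have h4 : ∑ s : Fin m, (if k i c + s = θ k then (1 : ℝ) else 0) = 1 := by
        rw [Fintype.sum_eq_single (θ k - k i c)]
        · simp
        · intro s hs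
          rw [if_neg]
          intro h
          apply hs
          rw [← h]
          simp
      rw [h4, mul_one]
    rw [sum_const, card_univ, Fintype.card_fin, nsmul_eq_mul] at h3
    exact h3
  have h5 : ∀ k : Fin w → Perm (Fin m), ψ k * (1 - m * (if k i c = θ k then (1 : ℝ) else 0)) =
      ψ k - m * (ψ k * (if k i c = θ k then (1 : ℝ) else 0)) := fun k => by ring
  rw [expect_congr rfl (fun k _ => h5 k), expect_sub_distrib, ← mul_expect, h2, sub_self]

theorem norm_xi (hm : 0 < m) (i : Fin w) (c : Fin m) (θ : (Fin w → Perm (Fin m)) → Fin m)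
    (hθ : ∀ k τ, θ (Pi.mulSingle i τ * k) = θ k) :
    𝔼 k : Fin w → Perm (Fin m), (1 - m * (if k i c = θ k then (1 : ℝ) else 0)) ^ 2 =
      (m : ℝ) - 1 := by
  have h := mean0 hm i c θ (fun _ => 1) hθ (fun _ _ => rfl)
  simp only [one_mul] at h
  have h5 : ∀ k : Fin w → Perm (Fin m), (1 - m * (if k i c = θ k then (1 : ℝ) else 0)) ^ 2 =
      ((m : ℝ) - 1) - (m - 2) * (1 - m * (if k i c = θ k then (1 : ℝ) else 0)) := fun k => by
    split_ifs <;> ring
  rw [expect_congr rfl (fun k _ => h5 k), expect_sub_distrib, ← mul_expect, h, mul_zero, sub_zero]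
  exact Fintype.expect_const _

/-- Bessel's inequality for averages. -/
theorem bessel {K R : Type*} [Fintype K] [DecidableEq R] (s : Finset R)
    (ξ : R → K → ℝ) (M : ℝ) (hM : 0 < M)
    (horth : ∀ x ∈ s, ∀ y ∈ s, x ≠ y → 𝔼 k, ξ x k * ξ y k = 0)
    (hnorm : ∀ x ∈ s, 𝔼 k, ξ x k ^ 2 = M) (f : K → ℝ) :
    ∑ x ∈ s, (𝔼 k, ξ x k * f k) ^ 2 ≤ M * 𝔼 k, f k ^ 2 := by
  set c : R → ℝ := fun x => 𝔼 k, ξ x k * f k with hc
  have h1 : 0 ≤ 𝔼 k, (M * f k - ∑ x ∈ s, c x * ξ x k) ^ 2 := expect_nonneg fun _ _ => sq_nonneg _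
  have h2 : ∀ k, (M * f k - ∑ x ∈ s, c x * ξ x k) ^ 2 =
      M ^ 2 * f k ^ 2 - 2 * M * (∑ x ∈ s, c x * (ξ x k * f k)) +
        ∑ x ∈ s, ∑ y ∈ s, c x * c y * (ξ x k * ξ y k) := by
    intro k
    have h3 : ∑ x ∈ s, c x * (ξ x k * f k) = (∑ x ∈ s, c x * ξ x k) * f k := by
      rw [sum_mul]
      exact sum_congr rfl fun x _ => by ring
    have h4 : ∑ x ∈ s, ∑ y ∈ s, c x * c y * (ξ x k * ξ y k) = (∑ x ∈ s, c x * ξ x k) ^ 2 := by
      rw [sq, sum_mul_sum]
      exact sum_congr rfl fun x _ => sum_congr rfl fun y _ => by ring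
    rw [h3, h4]
    ring
  rw [expect_congr rfl (fun k _ => h2 k), expect_add_distrib, expect_sub_distrib,
    ← mul_expect, ← mul_expect, expect_sum_comm, expect_sum_comm] at h1
  have h5 : ∑ x ∈ s, 𝔼 k, c x * (ξ x k * f k) = ∑ x ∈ s, c x ^ 2 := by
    refine sum_congr rfl fun x _ => ?_
    rw [← mul_expect, sq]
  have h6 : ∑ x ∈ s, 𝔼 k, ∑ y ∈ s, c x * c y * (ξ x k * ξ y k) = M * ∑ x ∈ s, c x ^ 2 := by
    rw [mul_sum]
    refine sum_congr rfl fun x hx => ?_
    rw [expect_sum_comm, sum_eq_single x]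
    · rw [← mul_expect]
      have : 𝔼 k, ξ x k * ξ x k = M := by
        rw [← hnorm x hx]
        exact expect_congr rfl fun k _ => by ring
      rw [this]
      ring
    · intro y hy hyx
      rw [← mul_expect, horth x hx y hy (Ne.symm hyx), mul_zero]
    · intro h
      exact absurd hx h
  rw [h5, h6] at h1
  have h7 : 0 ≤ M * (M * 𝔼 k, f k ^ 2 - ∑ x ∈ s, c x ^ 2) := by nlinarith
  have h8 := nonneg_of_mul_nonneg_right h7 hM
  linarith

end R769.TU
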