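import Mathlib

open Finset Equiv
open scoped BigOperators

namespace R769.TU

variable {n : ℕ} {ι : Type*} [DecidableEq ι]

theorem ainv {α : Type*} (h : Perm α) (p : α) : h (h⁻¹ p) = p := h.apply_symm_apply p

theorem inva {α : Type*} (h : Perm α) (p : α) : h⁻¹ (h p) = p := h.symm_apply_apply p

/-- Permutations preserving the colouring `ω` and fixing everything outside `S`. -/
def HS (ω : Fin n → ι) (S : Finset (Fin n)) : Finset (Perm (Fin n)) :=
  univ.filter fun h => (∀ p, ω (h p) = ω p) ∧ ∀ p, p ∉ S → h p = p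

theorem mem_HS {ω : Fin n → ι} {S : Finset (Fin n)} {h : Perm (Fin n)} :
    h ∈ HS ω S ↔ (∀ p, ω (h p) = ω p) ∧ ∀ p, p ∉ S → h p = p := by
  simp [HS]

theorem one_mem_HS (ω : Fin n → ι) (S : Finset (Fin n)) : (1 : Perm (Fin n)) ∈ HS ω S := by
  simp [mem_HS]

theorem HS_nonempty (ω : Fin n → ι) (S : Finset (Fin n)) : (HS ω S).Nonempty :=
  ⟨1, one_mem_HS ω S⟩

theorem mul_mem_HS {ω : Fin n → ι} {S : Finset (Fin n)} {g h : Perm (Fin n)}
    (hg : g ∈ HS ω S) (hh : h ∈ HS ω S) : g * h ∈ HS ω S := by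
  rw [mem_HS] at *
  refine ⟨fun p => by rw [Perm.mul_apply, hg.1, hh.1], fun p hp => ?_⟩
  rw [Perm.mul_apply, hh.2 p hp, hg.2 p hp]

theorem inv_mem_HS {ω : Fin n → ι} {S : Finset (Fin n)} {h : Perm (Fin n)}
    (hh : h ∈ HS ω S) : h⁻¹ ∈ HS ω S := by
  rw [mem_HS] at *
  refine ⟨fun p => ?_, fun p hp => ?_⟩
  · have := hh.1 (h⁻¹ p)
    rw [ainv] at this
    exact this.symm
  · rw [Perm.inv_eq_iff_eq, hh.2 p hp]

theorem apply_mem_of_mem_HS {ω : Fin n → ι} {S : Finset (Fin n)} {h : Perm (Fin n)}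
    (hh : h ∈ HS ω S) {p : Fin n} (hp : p ∈ S) : h p ∈ S := by
  by_contra hc
  have h1 := (mem_HS.1 hh).2 _ hc
  have h2 := h.injective h1
  rw [h2] at hc
  exact hc hp

/-- The averaging operator over `HS ω S`. -/
noncomputable def T (ω : Fin n → ι) (S : Finset (Fin n)) (f : Perm (Fin n) → ℝ)
    (X : Perm (Fin n)) : ℝ :=
  𝔼 h ∈ HS ω S, f (h * X)

theorem T_inv (ω : Fin n → ι) (S : Finset (Fin n)) (f : Perm (Fin n) → ℝ)
    (X s : Perm (Fin n)) (hs : s ∈ HS ω S) : T ω S f (s * X) = T ω S f X := by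
  unfold T
  refine expect_nbij' (fun h => h * s) (fun h => h * s⁻¹) ?_ ?_ ?_ ?_ ?_
  · intro h hh; exact mul_mem_HS hh hs
  · intro h hh; exact mul_mem_HS hh (inv_mem_HS hs)
  · intro h hh; simp
  · intro h hh; simp
  · intro h hh; simp [mul_assoc]

theorem expect_insert (ω : Fin n → ι) (S : Finset (Fin n)) (p : Fin n) (hp : p ∉ S)
    (F : Perm (Fin n) → ℝ) :
    𝔼 h ∈ HS ω (insert p S), F h =
      𝔼 q ∈ (insert p S).filter (fun q => ω q = ω p), 𝔼 h ∈ HS ω S, F (h * swap p q) := by
  rw [← expect_product']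
  symm
  refine expect_nbij' (fun x => x.2 * swap p x.1) (fun h => (h⁻¹ p, h * swap p (h⁻¹ p)))
    ?_ ?_ ?_ ?_ ?_
  · rintro ⟨q, h⟩ hx
    rw [mem_product, mem_filter] at hx
    obtain ⟨⟨hq, hωq⟩, hh⟩ := hx
    simp only at hq hωq hh ⊢
    have hh' := mem_HS.1 hh
    rw [mem_HS]
    refine ⟨fun r => ?_, fun r hr => ?_⟩
    · rw [Perm.mul_apply, hh'.1]
      rw [swap_apply_def]
      split_ifs with h1 h2
      · rw [h1, hωq]
      · rw [h2, hωq]
      · rfl
    · have hrp : r ≠ p := by rintro rfl; exact hr (mem_insert_self _ _)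
      have hrq : r ≠ q := by rintro rfl; exact hr hq
      rw [Perm.mul_apply, swap_apply_of_ne_of_ne hrp hrq]
      exact hh'.2 r (fun h => hr (mem_insert_of_mem h))
  · intro h hh
    have hh' := mem_HS.1 hh
    have hq : h⁻¹ p ∈ insert p S := by
      by_contra hc
      have h1 := hh'.2 _ hc
      rw [ainv] at h1
      rw [← h1] at hc
      exact hc (mem_insert_self _ _)
    have hω : ω (h⁻¹ p) = ω p := by
      have := hh'.1 (h⁻¹ p)
      rw [ainv] at this
      exact this.symm
    rw [mem_product, mem_filter]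
    refine ⟨⟨hq, hω⟩, ?_⟩
    rw [mem_HS]
    refine ⟨fun r => ?_, fun r hr => ?_⟩
    · simp only
      rw [Perm.mul_apply, hh'.1, swap_apply_def]
      split_ifs with h1 h2
      · rw [h1, hω]
      · rw [h2, hω]
      · rfl
    · simp only
      rw [Perm.mul_apply, swap_apply_def]
      split_ifs with h1 h2
      · rw [ainv, h1]
      · exfalso
        rw [h2] at hr h1
        rcases mem_insert.1 hq with h3 | h3
        · exact h1 h3
        · exact hr h3
      · exact hh'.2 r (fun h3 => by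
          rcases mem_insert.1 h3 with h4 | h4
          · exact h1 h4
          · exact hr h4)
  · rintro ⟨q, h⟩ hx
    rw [mem_product, mem_filter] at hx
    obtain ⟨⟨hq, hωq⟩, hh⟩ := hx
    simp only at hq hωq hh ⊢
    have hh' := mem_HS.1 hh
    have h1 : h⁻¹ p = p := by rw [Perm.inv_eq_iff_eq, hh'.2 p hp]
    have h2 : (h * swap p q)⁻¹ p = q := by
      rw [mul_inv_rev, swap_inv, Perm.mul_apply, h1, swap_apply_left]
    rw [h2, mul_assoc, swap_mul_self, mul_one]
  · intro h hh
    simp [mul_assoc]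
  · intro x hx
    rfl

theorem T_insert (ω : Fin n → ι) (S : Finset (Fin n)) (p : Fin n) (hp : p ∉ S)
    (f : Perm (Fin n) → ℝ) (X : Perm (Fin n)) :
    T ω (insert p S) f X =
      𝔼 q ∈ (insert p S).filter (fun q => ω q = ω p), T ω S f (swap p q * X) := by
  unfold T
  rw [expect_insert ω S p hp]
  simp [mul_assoc]

/-- Chebyshev's sum inequality for averages. -/
theorem cheb {κ : Type*} (s : Finset κ) (φ ψ : κ → ℝ) (h : MonovaryOn φ ψ s) :
    (𝔼 q ∈ s, φ q) * (𝔼 q ∈ s, ψ q) ≤ 𝔼 q ∈ s, φ q * ψ q := by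
  rcases s.eq_empty_or_nonempty with rfl | hs
  · simp
  have h1 := h.sum_mul_sum_le_card_mul_sum
  rw [expect_eq_sum_div_card, expect_eq_sum_div_card, expect_eq_sum_div_card]
  have hc : (0 : ℝ) < #s := by exact_mod_cast hs.card_pos
  rw [div_mul_div_comm, div_le_div_iff₀ (by positivity) hc]
  nlinarith

theorem key_swap (ω : Fin n → ι) (f : Perm (Fin n) → ℝ)
    (hf : ∀ X : Perm (Fin n), ∀ u v, u < v → X v < X u → ω (X u) = ω (X v) →
      f X ≤ f (X * swap u v))
    (S : Finset (Fin n)) (p : Fin n) (hpS : ∀ x ∈ S, p < x) (X : Perm (Fin n))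
    (q q' : Fin n) (hq : q ∈ (insert p S).filter (fun q => ω q = ω p))
    (hq' : q' ∈ (insert p S).filter (fun q => ω q = ω p))
    (hlt : X⁻¹ q < X⁻¹ q') :
    T ω S f (swap p q' * X) ≤ T ω S f (swap p q * X) := by
  rw [mem_filter] at hq hq'
  have hpn : p ∉ S := fun h => lt_irrefl _ (hpS p h)
  have hqq : q ≠ q' := by rintro rfl; exact lt_irrefl _ hlt
  set s : Perm (Fin n) := swap p q' * swap q q' * swap p q with hs
  have hsH : s ∈ HS ω S := by
    have hω : ∀ a b : Fin n, ω a = ω b → ∀ r, ω (swap a b r) = ω r := by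
      intro a b hab r
      rw [swap_apply_def]
      split_ifs with h1 h2
      · rw [h1, hab]
      · rw [h2, hab]
      · rfl
    rw [mem_HS]
    refine ⟨fun r => ?_, fun r hr => ?_⟩
    · rw [hs, Perm.mul_apply, Perm.mul_apply, hω _ _ hq'.2.symm, hω _ _ (hq.2.trans hq'.2.symm),
        hω _ _ hq.2.symm]
    · rw [hs, Perm.mul_apply, Perm.mul_apply]
      by_cases hrp : r = p
      · rw [hrp, swap_apply_left, swap_apply_left, swap_apply_right]
      · have hri : r ∉ insert p S := by
          intro h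
          rcases mem_insert.1 h with h | h
          · exact hrp h
          · exact hr h
        have hrq : r ≠ q := by rintro rfl; exact hri hq.1
        have hrq' : r ≠ q' := by rintro rfl; exact hri hq'.1
        rw [swap_apply_of_ne_of_ne hrp hrq, swap_apply_of_ne_of_ne hrq hrq',
          swap_apply_of_ne_of_ne hrp hrq']
  rw [← T_inv ω S f (swap p q * X) s hsH]
  have h1 : s * (swap p q * X) = swap p q' * X * swap (X⁻¹ q) (X⁻¹ q') := by
    have h2 : X * swap (X⁻¹ q) (X⁻¹ q') = swap q q' * X := by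
      rw [Equiv.mul_swap_eq_swap_mul]
      simp
    rw [mul_assoc (swap p q') X, h2, hs]
    simp only [mul_assoc]
    rw [← mul_assoc (swap p q) (swap p q), swap_mul_self, one_mul]
  rw [h1]
  unfold T
  refine expect_le_expect fun h hh => ?_
  have hh' := mem_HS.1 hh
  have h3 := hf (h * (swap p q' * X)) (X⁻¹ q) (X⁻¹ q') hlt
  rw [← mul_assoc h (swap p q' * X)]
  apply h3
  · simp only [Perm.mul_apply, ainv, swap_apply_right]
    rw [hh'.2 p hpn]
    apply hpS
    apply apply_mem_of_mem_HS hh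
    rw [swap_apply_def]
    split_ifs with h4
    · rcases mem_insert.1 hq'.1 with h6 | h6
      · exact absurd (h4.trans h6.symm) hqq
      · exact h6
    · rcases mem_insert.1 hq.1 with h6 | h6
      · exact absurd h6 h4
      · exact h6
  · simp only [Perm.mul_apply, ainv, swap_apply_right]
    rw [hh'.1, hh'.1, swap_apply_def]
    split_ifs with h4
    · exact hq'.2
    · exact hq.2

/-- Harris' inequality inside the windows. -/
theorem harris (ω : Fin n → ι) (f g : Perm (Fin n) → ℝ)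
    (hf : ∀ X : Perm (Fin n), ∀ u v, u < v → X v < X u → ω (X u) = ω (X v) →
      f X ≤ f (X * swap u v))
    (hg : ∀ X : Perm (Fin n), ∀ u v, u < v → X v < X u → ω (X u) = ω (X v) →
      g X ≤ g (X * swap u v))
    (S : Finset (Fin n)) :
    ∀ X, T ω S f X * T ω S g X ≤ T ω S (fun Y => f Y * g Y) X := by
  induction S using Finset.induction_on_min with
  | empty =>
    intro X
    have h1 : ∀ h ∈ HS ω ∅, h = 1 := by
      intro h hh
      ext p
      rw [(mem_HS.1 hh).2 p (by simp)]
      rfl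
    have h2 : HS ω (∅ : Finset (Fin n)) = {1} := by
      ext h
      rw [mem_singleton]
      exact ⟨h1 h, fun hh => hh ▸ one_mem_HS _ _⟩
    unfold T
    rw [h2]
    simp
  | insert p S hpS ih =>
    intro X
    have hpn : p ∉ S := fun h => lt_irrefl _ (hpS p h)
    rw [T_insert ω S p hpn f, T_insert ω S p hpn g, T_insert ω S p hpn]
    refine (cheb _ _ _ ?_).trans (expect_le_expect fun q _ => ih (swap p q * X))
    intro q hq q' hq' hlt
    simp only at hlt
    have hq1 : q ∈ (insert p S).filter (fun q => ω q = ω p) := hq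
    have hq1' : q' ∈ (insert p S).filter (fun q => ω q = ω p) := hq'
    rcases lt_trichotomy (X⁻¹ q) (X⁻¹ q') with h | h | h
    · exact absurd (key_swap ω g hg S p hpS X q q' hq1 hq1' h) (not_le.2 hlt)
    · have : q = q' := X⁻¹.injective h
      rw [this]
    · exact key_swap ω f hf S p hpS X q' q hq1' hq1 h

end R769.TU
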