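import Pool.Agent.R769.TU.Var

open Finset Equiv
open scoped BigOperators

namespace R769.TU

variable {n m w : ℕ}

theorem core (hm : 2 ≤ m) (hn0 : 0 < n) (κ : ℕ) (hκ : 1 ≤ κ)
    (hkey : ∀ y : ℝ, 0 ≤ y → y ≤ 1 →
      (1 - (1 - (1 / (Fintype.card (Perm (Fin m)) : ℝ))) * y +
        (1 - (1 / (Fintype.card (Perm (Fin m)) : ℝ))) ^ 2 * y ^ 2) ^ κ ≤
      1 / (Fintype.card (Perm (Fin m)) : ℝ) +
        (1 - 1 / (Fintype.card (Perm (Fin m)) : ℝ)) * (1 - y) ^ κ)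
    (e : (Fin m × Fin w) ↪ Fin n) (ω : Fin n → Fin m) (hω : ∀ c g, ω (e (c, g)) = c)
    (hn : n ≤ m * w + m) (F1 F2 : Perm (Fin n) → ℝ)
    (h01 : ∀ X, 0 ≤ F1 X ∧ F1 X ≤ 1) (h02 : ∀ X, 0 ≤ F2 X ∧ F2 X ≤ 1)
    (h1a : ∀ X : Perm (Fin n), ∀ u v, u < v → X v < X u → ω (X u) = ω (X v) →
      F1 X ≤ F1 (X * swap u v))
    (h2a : ∀ X : Perm (Fin n), ∀ u v, u < v → X v < X u → ω (X u) = ω (X v) →
      F2 X ≤ F2 (X * swap u v))
    (h1b : ∀ X : Perm (Fin n), ∀ u v, u < v → (ω (X u) : ℕ) = ω (X v) + 1 →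
      F1 X ≤ F1 (X * swap u v))
    (h2b : ∀ X : Perm (Fin n), ∀ u v, u < v → (ω (X u) : ℕ) = ω (X v) + 1 →
      F2 X ≤ F2 (X * swap u v))
    (r : ℝ) (hr0 : 0 ≤ r) (hr : r ≤ (𝔼 X, F1 X) * (𝔼 X, F2 X) - 17 * (m : ℝ) ^ 3 / n) :
    r ^ κ ≤ 𝔼 X, F1 X * F2 X := by
  have hQ : 2 ≤ Fintype.card (Perm (Fin m)) := by
    rw [Fintype.card_perm, Fintype.card_fin]
    calc 2 = Nat.factorial 2 := rfl
      _ ≤ Nat.factorial m := Nat.factorial_le hm
  set a := T ω univ F1 with ha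
  set b := T ω univ F2 with hb
  have hT : ∀ F : Perm (Fin n) → ℝ, (∀ X, 0 ≤ F X ∧ F X ≤ 1) →
      ∀ X, 0 ≤ T ω univ F X ∧ T ω univ F X ≤ 1 := fun F hF X =>
    ⟨expect_nonneg fun _ _ => (hF _).1, expect_le (HS_nonempty _ _) fun _ _ => (hF _).2⟩
  have ha01 := hT F1 h01
  have hb01 := hT F2 h02
  have hinv : ∀ F : Perm (Fin n) → ℝ, ∀ h X : Perm (Fin n), (∀ p, ω (h p) = ω p) →
      T ω univ F (h * X) = T ω univ F X := fun F h X hh =>
    T_inv ω univ F X h (mem_HS.2 ⟨hh, fun p hp => absurd (mem_univ p) hp⟩)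
  have hadj : ∀ F : Perm (Fin n) → ℝ,
      (∀ X : Perm (Fin n), ∀ u v, u < v → (ω (X u) : ℕ) = ω (X v) + 1 →
        F X ≤ F (X * swap u v)) →
      ∀ X : Perm (Fin n), ∀ u v, u < v → (ω (X u) : ℕ) = ω (X v) + 1 →
        T ω univ F X ≤ T ω univ F (X * swap u v) := by
    intro F hF X u v huv hw
    unfold T
    refine expect_le_expect fun h hh => ?_
    rw [← mul_assoc]
    refine hF (h * X) u v huv ?_
    rw [Perm.mul_apply, Perm.mul_apply, (mem_HS.1 hh).1, (mem_HS.1 hh).1]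
    exact hw
  have step1 : 𝔼 X, a X * b X ≤ 𝔼 X, F1 X * F2 X := by
    rw [← expect_T ω univ (fun X => F1 X * F2 X)]
    exact expect_le_expect fun X _ => harris ω F1 F2 h1a h2a univ X
  have step2 : 𝔼 X, (U e a X * U e b X) ^ κ ≤ 𝔼 X, a X * b X := by
    rw [← expect_U e (fun X => a X * b X)]
    refine expect_le_expect fun X _ => ?_
    refine tensor κ hκ hQ hkey w (fun k => a (act e k * X)) (fun k => b (act e k * X))
      (fun k => ha01 _) (fun k => hb01 _)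
      (fun g => (Tuple.sort fun c => X⁻¹ (e (c, g)))⁻¹) (fun k i => ?_) (fun k i => ?_)
    · exact act_top e ω hω a (hadj F1 h1b) X k i
    · exact act_top e ω hω b (hadj F2 h2b) X k i
  have step3 : (𝔼 X, U e a X * U e b X) ^ κ ≤ 𝔼 X, (U e a X * U e b X) ^ κ :=
    pow_expect_le univ univ_nonempty _ (fun X _ =>
      mul_nonneg (expect_nonneg fun _ _ => (ha01 _).1) (expect_nonneg fun _ _ => (hb01 _).1)) κ
  have hEa : 𝔼 X, a X = 𝔼 X, F1 X := expect_T ω univ F1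
  have hEb : 𝔼 X, b X = 𝔼 X, F2 X := expect_T ω univ F2
  have hva := var_bound hm e ω hω hn a (fun X => (ha01 X).1) (fun X => (ha01 X).2) (hinv F1)
  have hvb := var_bound hm e ω hω hn b (fun X => (hb01 X).1) (fun X => (hb01 X).2) (hinv F2)
  have hnR : (0 : ℝ) < n := by exact_mod_cast hn0
  set μ := 𝔼 X, F1 X with hμ
  set ν := 𝔼 X, F2 X with hν
  rw [hEa] at hva
  rw [hEb] at hvb
  have hva' : 𝔼 X, U e a X ^ 2 - μ ^ 2 ≤ 17 * (m : ℝ) ^ 3 / n := by
    rw [le_div_iff₀ hnR]; linarith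
  have hvb' : 𝔼 X, U e b X ^ 2 - ν ^ 2 ≤ 17 * (m : ℝ) ^ 3 / n := by
    rw [le_div_iff₀ hnR]; linarith
  have hUa : 𝔼 X, U e a X = μ := by rw [expect_U, hEa]
  have hUb : 𝔼 X, U e b X = ν := by rw [expect_U, hEb]
  have step4 : r ≤ 𝔼 X, U e a X * U e b X := by
    have h1 := sq_expect_le univ (fun X => U e a X + U e b X)
    have h2 : ∀ X, (U e a X + U e b X) ^ 2 =
        U e a X ^ 2 + U e b X ^ 2 + 2 * (U e a X * U e b X) := fun X => by ring
    rw [expect_congr rfl (fun X _ => h2 X), expect_add_distrib, expect_add_distrib,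
      expect_add_distrib, ← mul_expect, hUa, hUb] at h1
    nlinarith
  calc r ^ κ ≤ (𝔼 X, U e a X * U e b X) ^ κ := pow_le_pow_left₀ hr0 step4 κ
    _ ≤ _ := step3
    _ ≤ _ := step2
    _ ≤ _ := step1

/-- distance of positions in the same or adjacent windows -/
theorem dist_le (n m w p q : ℕ) (hm : 2 ≤ m) (hw : m ≤ w) (hn : n < m * w + m) (hp : p < n)
    (h : min (p / w) (m - 1) ≤ min (q / w) (m - 1) + 1) : p - q ≤ 3 * w := by
  have hw0 : 0 < w := by omega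
  have hq1 : w * (q / w) ≤ q := Nat.mul_div_le q w
  have hp1 : p < w * (p / w + 1) := Nat.lt_mul_div_succ p hw0
  set P := p / w
  set Q := q / w
  rcases Nat.lt_or_ge (m - 1) P with h1 | h1
  · have h2 : min P (m - 1) = m - 1 := min_eq_right h1.le
    rw [h2] at h
    have h3 : m - 1 ≤ Q + 1 := h.trans (Nat.add_le_add_right (min_le_left _ _) 1)
    have h4 : m ≤ Q + 2 := by omega
    have h5 : m * w ≤ (Q + 2) * w := Nat.mul_le_mul_right w h4
    have h6 : (Q + 2) * w = w * Q + 2 * w := by ring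
    omega
  · have h2 : min P (m - 1) = P := min_eq_left h1
    rw [h2] at h
    have h3 : P ≤ Q + 1 := h.trans (Nat.add_le_add_right (min_le_left _ _) 1)
    have h5 : w * (P + 1) ≤ w * (Q + 2) := Nat.mul_le_mul_left w (by omega)
    have h6 : w * (Q + 2) = w * Q + 2 * w := by ring
    omega

end R769.TU
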