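import Mathlib

open Finset
open scoped BigOperators

namespace R769.TU

/-- power mean inequality for averages -/
theorem pow_expect_le {κ : Type*} (s : Finset κ) (hs : s.Nonempty) (f : κ → ℝ)
    (hf : ∀ i ∈ s, 0 ≤ f i) (k : ℕ) :
    (𝔼 i ∈ s, f i) ^ k ≤ 𝔼 i ∈ s, f i ^ k := by
  rcases k with _ | k
  · simp [expect_const hs]
  have h := pow_sum_div_card_le_sum_pow hf k
  have hc : (0 : ℝ) < #s := by exact_mod_cast hs.card_pos
  rw [expect_eq_sum_div_card, expect_eq_sum_div_card, div_pow, pow_succ (#s : ℝ) k,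
    ← div_div]
  exact div_le_div_of_nonneg_right h hc.le

theorem one_var_small (p : ℝ) (hp : 0 < p) (hp1 : p ≤ 1 / 2) (κ : ℕ) (hκ : 4 ≤ (κ : ℝ) * p)
    (y : ℝ) (hy0 : 0 ≤ y) (hy : y ≤ 1 / 4) :
    (1 - (1 - p) * y + (1 - p) ^ 2 * y ^ 2) ^ (κ + 1) ≤ p + (1 - p) * (1 - y) ^ (κ + 1) := by
  set q := 1 - p with hq
  have hq0 : 0 < q := by linarith
  have hq1 : q ≤ 1 := by linarith
  set h : ℝ → ℝ := fun y => p + q * (1 - y) ^ (κ + 1) - (1 - q * y + q ^ 2 * y ^ 2) ^ (κ + 1)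
    with hh
  have hder : ∀ y, HasDerivAt h (q * (((κ + 1 : ℕ) : ℝ) * (1 - y) ^ κ * (-1)) -
      ((κ + 1 : ℕ) : ℝ) * (1 - q * y + q ^ 2 * y ^ 2) ^ κ * (-q + q ^ 2 * (2 * y))) y := by
    intro y
    have h1 : HasDerivAt (fun y : ℝ => 1 - y) (-1) y := by
      simpa using (hasDerivAt_id y).const_sub 1
    have h2 := (h1.pow (κ + 1)).const_mul q
    have h3 : HasDerivAt (fun y : ℝ => 1 - q * y + q ^ 2 * y ^ 2) (-q + q ^ 2 * (2 * y)) y := by
      have h4 : HasDerivAt (fun y : ℝ => 1 - q * y) (-q) y := by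
        simpa using ((hasDerivAt_id y).const_mul q).const_sub 1
      have h5 : HasDerivAt (fun y : ℝ => q ^ 2 * y ^ 2) (q ^ 2 * (2 * y)) y := by
        simpa using (hasDerivAt_pow 2 y).const_mul (q ^ 2)
      exact h4.add h5
    exact (h2.const_add p).sub (h3.pow (κ + 1))
  have hmono : MonotoneOn h (Set.Icc 0 (1 / 4)) := by
    refine monotoneOn_of_deriv_nonneg (convex_Icc _ _) ?_ ?_ ?_
    · exact fun y _ => (hder y).continuousAt.continuousWithinAt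
    · exact fun y _ => (hder y).differentiableAt.differentiableWithinAt
    · intro y hy
      rw [interior_Icc] at hy
      obtain ⟨hy0, hy1⟩ := hy
      rw [(hder y).deriv]
      have hc : (0 : ℝ) ≤ (1 - y) ^ κ := pow_nonneg (by linarith) _
      have hqy : q * y ≤ 1 / 4 := by nlinarith
      have hb : (1 + p * y) * (1 - y) ≤ 1 - q * y + q ^ 2 * y ^ 2 := by
        have : (1 + p * y) * (1 - y) = 1 - q * y - p * y ^ 2 := by rw [hq]; ring
        rw [this]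
        nlinarith [sq_nonneg y, mul_nonneg hp.le (sq_nonneg y), mul_nonneg (sq_nonneg q) (sq_nonneg y)]
      have hb1 : (1 + (κ : ℝ) * (p * y)) * (1 - y) ^ κ ≤ (1 - q * y + q ^ 2 * y ^ 2) ^ κ := by
        have h1 : (1 + (κ : ℝ) * (p * y)) ≤ (1 + p * y) ^ κ :=
          one_add_mul_le_pow (by nlinarith [mul_nonneg hp.le hy0.le]) κ
        calc (1 + (κ : ℝ) * (p * y)) * (1 - y) ^ κ ≤ (1 + p * y) ^ κ * (1 - y) ^ κ :=
              mul_le_mul_of_nonneg_right h1 hc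
          _ = ((1 + p * y) * (1 - y)) ^ κ := (mul_pow _ _ _).symm
          _ ≤ _ := pow_le_pow_left₀ (mul_nonneg (by nlinarith [mul_nonneg hp.le hy0.le])
              (by linarith)) hb κ
      have h2 : 1 ≤ (1 - 2 * (q * y)) * (1 + (κ : ℝ) * (p * y)) := by
        have h3 : 1 / 2 ≤ 1 - 2 * (q * y) := by linarith
        have h4 : 4 * y ≤ (κ : ℝ) * (p * y) := by nlinarith
        have h5 : 0 ≤ (κ : ℝ) * (p * y) := by nlinarith
        have h6 : (1 / 2) * ((κ : ℝ) * (p * y)) ≤ (1 - 2 * (q * y)) * ((κ : ℝ) * (p * y)) :=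
          mul_le_mul_of_nonneg_right h3 h5
        have h7 : q * y ≤ y := by nlinarith
        nlinarith
      have h3 : (1 - y) ^ κ ≤ (1 - 2 * (q * y)) * (1 - q * y + q ^ 2 * y ^ 2) ^ κ := by
        calc (1 - y) ^ κ = 1 * (1 - y) ^ κ := (one_mul _).symm
          _ ≤ ((1 - 2 * (q * y)) * (1 + (κ : ℝ) * (p * y))) * (1 - y) ^ κ :=
              mul_le_mul_of_nonneg_right h2 hc
          _ = (1 - 2 * (q * y)) * ((1 + (κ : ℝ) * (p * y)) * (1 - y) ^ κ) := by ring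
          _ ≤ _ := mul_le_mul_of_nonneg_left hb1 (by linarith)
      have h4 : q * (((κ + 1 : ℕ) : ℝ) * (1 - y) ^ κ * (-1)) -
          ((κ + 1 : ℕ) : ℝ) * (1 - q * y + q ^ 2 * y ^ 2) ^ κ * (-q + q ^ 2 * (2 * y)) =
          (((κ + 1 : ℕ) : ℝ) * q) * ((1 - 2 * (q * y)) * (1 - q * y + q ^ 2 * y ^ 2) ^ κ -
            (1 - y) ^ κ) := by ring
      rw [h4]
      exact mul_nonneg (by positivity) (by linarith)
  have h0 : h 0 = 0 := by
    simp only [hh]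
    rw [hq]
    norm_num
  have h1 := hmono (Set.left_mem_Icc.2 (by norm_num)) ⟨hy0, hy⟩ hy0
  rw [h0] at h1
  simp only [hh] at h1
  linarith

theorem exists_kappa (N : ℕ) (hN : 2 ≤ N) : ∃ κ : ℕ, 1 ≤ κ ∧ ∀ y : ℝ, 0 ≤ y → y ≤ 1 →
    (1 - (1 - (1 / N : ℝ)) * y + (1 - (1 / N : ℝ)) ^ 2 * y ^ 2) ^ κ ≤
      1 / N + (1 - 1 / N) * (1 - y) ^ κ := by
  have hN0 : (0 : ℝ) < N := by exact_mod_cast (by omega : 0 < N)
  have hN2 : (2 : ℝ) ≤ N := by exact_mod_cast hN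
  set p : ℝ := 1 / N with hp
  have hp0 : 0 < p := by positivity
  have hp1 : p ≤ 1 / 2 := by
    rw [hp, div_le_div_iff₀ hN0 (by norm_num)]
    linarith
  have hq0 : 0 < 1 - p := by linarith
  have hb1 : 1 - p * (1 - p) / 4 < 1 := by
    have := mul_pos hp0 hq0
    linarith
  obtain ⟨κ1, hκ1⟩ := exists_pow_lt_of_lt_one hp0 hb1
  refine ⟨max κ1 (4 * N) + 1, by omega, fun y hy0 hy1 => ?_⟩
  by_cases hy : y ≤ 1 / 4
  · refine one_var_small p hp0 hp1 _ ?_ y hy0 hy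
    have h1 : (4 * N : ℝ) ≤ ((max κ1 (4 * N) : ℕ) : ℝ) := by
      exact_mod_cast le_max_right κ1 (4 * N)
    have h2 : (4 * N : ℝ) * p = 4 := by rw [hp]; field_simp
    calc (4 : ℝ) = (4 * N : ℝ) * p := h2.symm
      _ ≤ _ := mul_le_mul_of_nonneg_right h1 hp0.le
  · push Not at hy
    set κ := max κ1 (4 * N) + 1 with hκ
    have hb : 1 - (1 - p) * y + (1 - p) ^ 2 * y ^ 2 ≤ 1 - p * (1 - p) / 4 := by
      have h1 : 1 - (1 - p) * y + (1 - p) ^ 2 * y ^ 2 =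
          1 - ((1 - p) * y) * (1 - (1 - p) * y) := by ring
      rw [h1]
      have h2 : p ≤ 1 - (1 - p) * y := by nlinarith
      have h3 : (1 - p) / 4 ≤ (1 - p) * y := by nlinarith
      have h4 : (1 - p) / 4 * p ≤ ((1 - p) * y) * (1 - (1 - p) * y) :=
        mul_le_mul h3 h2 hp0.le (by nlinarith)
      linarith
    have hb0 : 0 ≤ 1 - (1 - p) * y + (1 - p) ^ 2 * y ^ 2 := by
      have h1 : (1 - p) * y ≤ 1 := by nlinarith
      nlinarith [sq_nonneg ((1 - p) * y)]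
    have hc0 : 0 ≤ 1 - p * (1 - p) / 4 := by nlinarith
    have h1 : (1 - (1 - p) * y + (1 - p) ^ 2 * y ^ 2) ^ κ ≤ p := by
      calc _ ≤ (1 - p * (1 - p) / 4) ^ κ := pow_le_pow_left₀ hb0 hb κ
        _ ≤ (1 - p * (1 - p) / 4) ^ κ1 := pow_le_pow_of_le_one hc0 hb1.le (by omega)
        _ ≤ p := hκ1.le
    have h2 : 0 ≤ (1 - p) * (1 - y) ^ κ :=
      mul_nonneg hq0.le (pow_nonneg (by linarith) _)
    linarith

/-- the κ-inequality for two functions with a common maximum -/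
theorem kappa_two {Q : Type*} [Fintype Q] [DecidableEq Q] (κ : ℕ) (hκ : 1 ≤ κ)
    (hQ : 2 ≤ Fintype.card Q)
    (hkey : ∀ y : ℝ, 0 ≤ y → y ≤ 1 →
      (1 - (1 - (1 / Fintype.card Q : ℝ)) * y + (1 - (1 / Fintype.card Q : ℝ)) ^ 2 * y ^ 2) ^ κ ≤
      1 / Fintype.card Q + (1 - 1 / Fintype.card Q) * (1 - y) ^ κ)
    (F1 F2 : Q → ℝ) (h1 : ∀ q, 0 ≤ F1 q) (h2 : ∀ q, 0 ≤ F2 q) (top : Q)
    (ht1 : ∀ q, F1 q ≤ F1 top) (ht2 : ∀ q, F2 q ≤ F2 top) :
    ((𝔼 q, F1 q) * (𝔼 q, F2 q)) ^ κ ≤ 𝔼 q, (F1 q * F2 q) ^ κ := by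
  have hRHS : 0 ≤ 𝔼 q, (F1 q * F2 q) ^ κ :=
    expect_nonneg fun q _ => pow_nonneg (mul_nonneg (h1 q) (h2 q)) _
  rcases (h1 top).eq_or_lt with h0 | hM1
  · have : ∀ q, F1 q = 0 := fun q => le_antisymm (h0 ▸ ht1 q) (h1 q)
    have h3 : 𝔼 q, F1 q = 0 := expect_eq_zero fun q _ => this q
    rw [h3, zero_mul, zero_pow (by omega)]
    exact hRHS
  rcases (h2 top).eq_or_lt with h0 | hM2
  · have : ∀ q, F2 q = 0 := fun q => le_antisymm (h0 ▸ ht2 q) (h2 q)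
    have h3 : 𝔼 q, F2 q = 0 := expect_eq_zero fun q _ => this q
    rw [h3, mul_zero, zero_pow (by omega)]
    exact hRHS
  have : Nonempty Q := ⟨top⟩
  set M1 := F1 top
  set M2 := F2 top
  set G1 : Q → ℝ := fun q => F1 q / M1 with hG1
  set G2 : Q → ℝ := fun q => F2 q / M2 with hG2
  have hG1' : ∀ q, 0 ≤ G1 q ∧ G1 q ≤ 1 := fun q =>
    ⟨div_nonneg (h1 q) hM1.le, (div_le_one hM1).2 (ht1 q)⟩
  have hG2' : ∀ q, 0 ≤ G2 q ∧ G2 q ≤ 1 := fun q =>
    ⟨div_nonneg (h2 q) hM2.le, (div_le_one hM2).2 (ht2 q)⟩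
  have hF1 : ∀ q, F1 q = M1 * G1 q := fun q => by
    simp only [hG1]; rw [mul_div_cancel₀ _ hM1.ne']
  have hF2 : ∀ q, F2 q = M2 * G2 q := fun q => by
    simp only [hG2]; rw [mul_div_cancel₀ _ hM2.ne']
  have hgoal : ((𝔼 q, G1 q) * (𝔼 q, G2 q)) ^ κ ≤ 𝔼 q, (G1 q * G2 q) ^ κ := by
    set N : ℝ := (Fintype.card Q : ℝ) with hN
    have hN2 : (2 : ℝ) ≤ N := by rw [hN]; exact_mod_cast hQ
    have hN0 : (0 : ℝ) < N := by linarith
    have hN1 : (0 : ℝ) < N - 1 := by linarith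
    have htop1 : G1 top = 1 := div_self hM1.ne'
    have htop2 : G2 top = 1 := div_self hM2.ne'
    set G : Q → ℝ := fun q => G1 q * G2 q with hG
    have hG' : ∀ q, 0 ≤ G q ∧ G q ≤ 1 := fun q =>
      ⟨mul_nonneg (hG1' q).1 (hG2' q).1, mul_le_one₀ (hG1' q).2 (hG2' q).1 (hG2' q).2⟩
    have hGt : G top = 1 := by simp only [hG]; rw [htop1, htop2, one_mul]
    set ζ := 1 - 𝔼 q, G q with hζ
    set a1 := 1 - 𝔼 q, G1 q with ha1
    set a2 := 1 - 𝔼 q, G2 q with ha2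
    have hE1 : 𝔼 q, G1 q = 1 - a1 := by rw [ha1]; ring
    have hE2 : 𝔼 q, G2 q = 1 - a2 := by rw [ha2]; ring
    have ha1' : a1 ≤ ζ := by
      have : 𝔼 q, G q ≤ 𝔼 q, G1 q := expect_le_expect fun q _ =>
        mul_le_of_le_one_right (hG1' q).1 (hG2' q).2
      rw [ha1, hζ]; linarith
    have ha2' : a2 ≤ ζ := by
      have : 𝔼 q, G q ≤ 𝔼 q, G2 q := expect_le_expect fun q _ =>
        mul_le_of_le_one_left (hG2' q).1 (hG1' q).2
      rw [ha2, hζ]; linarith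
    have ha10 : 0 ≤ a1 := by
      have : 𝔼 q, G1 q ≤ 1 := expect_le univ_nonempty fun q _ => (hG1' q).2
      rw [ha1]; linarith
    have ha20 : 0 ≤ a2 := by
      have : 𝔼 q, G2 q ≤ 1 := expect_le univ_nonempty fun q _ => (hG2' q).2
      rw [ha2]; linarith
    have hsum : ζ ≤ a1 + a2 := by
      have h3 : 𝔼 q, (G1 q + G2 q - 1) ≤ 𝔼 q, G q := expect_le_expect fun q _ => by
        have := mul_nonneg (sub_nonneg.2 (hG1' q).2) (sub_nonneg.2 (hG2' q).2)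
        simp only [hG]
        nlinarith
      rw [expect_sub_distrib, expect_add_distrib, Fintype.expect_one, hE1, hE2] at h3
      rw [hζ]
      linarith
    set S := ∑ q ∈ univ.erase top, G q with hS
    have hcard : (#(univ.erase top) : ℝ) = N - 1 := by
      rw [card_erase_of_mem (mem_univ _), card_univ, Nat.cast_sub (by omega)]
      simp [hN]
    have hS0 : 0 ≤ S := sum_nonneg fun q _ => (hG' q).1
    have hS1 : S ≤ N - 1 := by
      rw [← hcard, hS]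
      have := sum_le_sum fun q (_ : q ∈ univ.erase top) => (hG' q).2
      simpa using this
    have hEG : 𝔼 q, G q = (1 + S) / N := by
      rw [Fintype.expect_eq_sum_div_card, ← add_sum_erase _ _ (mem_univ top), hGt]
    set y := 1 - S / (N - 1) with hy
    have hy0 : 0 ≤ y := by rw [hy, sub_nonneg, div_le_one hN1]; exact hS1
    have hy1 : y ≤ 1 := by rw [hy]; linarith [div_nonneg hS0 hN1.le]
    have hζy : ζ = (1 - 1 / N) * y := by
      rw [hζ, hEG, hy]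
      field_simp
      ring
    have hk := hkey y hy0 hy1
    have hpow : (N - 1) * (1 - y) ^ κ ≤ ∑ q ∈ univ.erase top, G q ^ κ := by
      have hne : (univ.erase top : Finset Q).Nonempty := by
        rw [← card_pos, card_erase_of_mem (mem_univ _), card_univ]
        omega
      have h3 := pow_expect_le (univ.erase top) hne G (fun q _ => (hG' q).1) κ
      rw [expect_eq_sum_div_card, expect_eq_sum_div_card, hcard, ← hS] at h3
      have h4 : 1 - y = S / (N - 1) := by rw [hy]; ring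
      rw [h4]
      rw [le_div_iff₀ hN1] at h3
      linarith
    have hLHS : (𝔼 q, G1 q) * (𝔼 q, G2 q) ≤
        1 - (1 - 1 / N) * y + (1 - 1 / N) ^ 2 * y ^ 2 := by
      rw [hE1, hE2]
      have h5 : 1 - (1 - 1 / N) * y + (1 - 1 / N) ^ 2 * y ^ 2 = 1 - ζ + ζ ^ 2 := by
        rw [hζy]; ring
      rw [h5]
      have h6 : a1 * a2 ≤ ζ * ζ := mul_le_mul ha1' ha2' ha20 (ha10.trans ha1')
      nlinarith
    have hLHS0 : 0 ≤ (𝔼 q, G1 q) * (𝔼 q, G2 q) :=
      mul_nonneg (expect_nonneg fun q _ => (hG1' q).1) (expect_nonneg fun q _ => (hG2' q).1)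
    refine (pow_le_pow_left₀ hLHS0 hLHS κ).trans (hk.trans ?_)
    have h7 : 𝔼 q, G q ^ κ = (1 + ∑ q ∈ univ.erase top, G q ^ κ) / N := by
      rw [Fintype.expect_eq_sum_div_card, ← add_sum_erase _ _ (mem_univ top), hGt, one_pow]
    rw [h7, le_div_iff₀ hN0]
    have h8 : (1 / N + (1 - 1 / N) * (1 - y) ^ κ) * N = 1 + (N - 1) * (1 - y) ^ κ := by
      field_simp
    rw [h8]
    linarith
  have e1 : 𝔼 q, F1 q = M1 * 𝔼 q, G1 q := by
    rw [mul_expect]; exact expect_congr rfl fun q _ => hF1 q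
  have e2 : 𝔼 q, F2 q = M2 * 𝔼 q, G2 q := by
    rw [mul_expect]; exact expect_congr rfl fun q _ => hF2 q
  have e3 : 𝔼 q, (F1 q * F2 q) ^ κ = (M1 * M2) ^ κ * 𝔼 q, (G1 q * G2 q) ^ κ := by
    rw [mul_expect]
    refine expect_congr rfl fun q _ => ?_
    rw [hF1 q, hF2 q, ← mul_pow]
    ring
  rw [e1, e2, e3]
  have e4 : (M1 * 𝔼 q, G1 q) * (M2 * 𝔼 q, G2 q) = (M1 * M2) * ((𝔼 q, G1 q) * (𝔼 q, G2 q)) := by
    ring
  rw [e4, mul_pow]
  exact mul_le_mul_of_nonneg_left hgoal (by positivity)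

end R769.TU
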