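import Pool.Agent.R769.TU.Core

open Finset Equiv
open scoped BigOperators

namespace R769.TU

variable {n : ℕ}

/-- `t`-up-sets of permutations `a : position → value` -/
def UpSet (t : ℕ) (A : Finset (Perm (Fin n))) : Prop :=
  ∀ a ∈ A, ∀ i j : Fin n, i < j → a.symm j < a.symm i →
    (a.symm i : ℕ) - (a.symm j : ℕ) ≤ t → swap i j * a ∈ A

/-- indicator of the family of the inverses -/
noncomputable def ind (A : Finset (Perm (Fin n))) (X : Perm (Fin n)) : ℝ :=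
  if X⁻¹ ∈ A then 1 else 0

theorem ind_01 (A : Finset (Perm (Fin n))) (X : Perm (Fin n)) : 0 ≤ ind A X ∧ ind A X ≤ 1 := by
  unfold ind
  split_ifs <;> norm_num

theorem expect_ind (A : Finset (Perm (Fin n))) :
    𝔼 X, ind A X = (#A : ℝ) / (n.factorial : ℝ) := by
  rw [Fintype.expect_eq_sum_div_card, Fintype.card_perm, Fintype.card_fin]
  congr 1
  have h1 : ∑ X : Perm (Fin n), ind A X = ∑ Y : Perm (Fin n), if Y ∈ A then (1 : ℝ) else 0 :=
    Fintype.sum_equiv (Equiv.inv (Perm (Fin n))) _ _ (fun X => rfl)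
  rw [h1]
  simp

theorem ind_mul (A B : Finset (Perm (Fin n))) (X : Perm (Fin n)) :
    ind A X * ind B X = ind (A ∩ B) X := by
  unfold ind
  simp only [mem_inter]
  split_ifs <;> simp_all

theorem ind_swap (t : ℕ) (A : Finset (Perm (Fin n))) (hA : UpSet t A) (X : Perm (Fin n))
    (u v : Fin n) (huv : u < v) (hX : X v < X u) (ht : (X u : ℕ) - (X v : ℕ) ≤ t) :
    ind A X ≤ ind A (X * swap u v) := by
  by_cases h : X⁻¹ ∈ A
  · have h1 := hA _ h u v huv hX ht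
    have h2 : (X * swap u v)⁻¹ ∈ A := by
      rw [mul_inv_rev, swap_inv]
      exact h1
    unfold ind
    rw [if_pos h2]
    split_ifs <;> norm_num
  · have : ind A X = 0 := by
      unfold ind
      rw [if_neg h]
    rw [this]
    exact (ind_01 A _).1

/-- every nonempty `t`-up-set with `t ≥ 1` contains one and the same permutation. -/
theorem top_mem (t : ℕ) (ht : 0 < n → 1 ≤ t) (A : Finset (Perm (Fin n))) (hA : UpSet t A)
    (hne : A.Nonempty) : ((Tuple.sort (id : Fin n → Fin n))⁻¹)⁻¹ ∈ A := by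
  obtain ⟨a, ha⟩ := hne
  have hb := bubble (id : Fin n → Fin n) Function.injective_id (ind A) ?_ a⁻¹
  · by_contra hc
    have h1 : ind A a⁻¹ = 1 := by
      unfold ind
      rw [if_pos (by rwa [inv_inv])]
    have h2 : ind A ((Tuple.sort (id : Fin n → Fin n))⁻¹) = 0 := by
      unfold ind
      rw [if_neg hc]
    rw [h1, h2] at hb
    norm_num at hb
  · intro σ c c' hcc hlt
    simp only [id] at hlt
    have h1 := ind_swap t A hA σ (σ⁻¹ c') (σ⁻¹ c) hlt
      (by rw [ainv, ainv, Fin.lt_def, hcc]; omega)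
      (by
        rw [ainv, ainv, hcc]
        have := ht (by have := c.2; omega)
        omega)
    rwa [Equiv.mul_swap_eq_swap_mul, ainv, ainv] at h1

theorem main_large (α : ℝ) (hα : 0 < α) (m : ℕ) (hm : 2 ≤ m) (hmα : 4 ≤ (m : ℝ) * α)
    (κ : ℕ) (hκ : 1 ≤ κ)
    (hkey : ∀ y : ℝ, 0 ≤ y → y ≤ 1 →
      (1 - (1 - (1 / (Fintype.card (Perm (Fin m)) : ℝ))) * y +
        (1 - (1 / (Fintype.card (Perm (Fin m)) : ℝ))) ^ 2 * y ^ 2) ^ κ ≤
      1 / (Fintype.card (Perm (Fin m)) : ℝ) +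
        (1 - 1 / (Fintype.card (Perm (Fin m)) : ℝ)) * (1 - y) ^ κ)
    (hn1 : m * m + m ≤ n) (hn2 : 34 * (m : ℝ) ^ 3 ≤ α ^ 2 * n)
    (A B : Finset (Perm (Fin n))) (hA : UpSet ⌈α * n⌉₊ A) (hB : UpSet ⌈α * n⌉₊ B)
    (hcA : α * (n.factorial : ℝ) ≤ #A) (hcB : α * (n.factorial : ℝ) ≤ #B) :
    (α ^ 2 / 2) ^ κ * (n.factorial : ℝ) ≤ #(A ∩ B) := by
  have hm0 : 0 < m := by omega
  have hn0 : 0 < n := by nlinarith
  have hnR : (0 : ℝ) < n := by exact_mod_cast hn0
  set w := n / m with hw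
  have hwn : m * w ≤ n := Nat.mul_div_le n m
  have hnw : n < m * w + m := by
    have := Nat.lt_mul_div_succ n hm0
    rw [← hw] at this
    have h2 : m * (w + 1) = m * w + m := by ring
    omega
  have hmw : m ≤ w := by
    rw [hw, Nat.le_div_iff_mul_le hm0]
    omega
  have hw0 : 0 < w := by omega
  -- the threshold
  have ht : 3 * w ≤ ⌈α * n⌉₊ := by
    have h1 : ((3 * w : ℕ) : ℝ) ≤ α * n := by
      have h2 : ((m * w : ℕ) : ℝ) ≤ n := by exact_mod_cast hwn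
      push_cast at h2 ⊢
      have h3 : α * ((m : ℝ) * w) ≤ α * n := mul_le_mul_of_nonneg_left h2 hα.le
      have hw' : (0 : ℝ) ≤ w := Nat.cast_nonneg _
      have h4 : 4 * (w : ℝ) ≤ (m : ℝ) * α * w := mul_le_mul_of_nonneg_right hmα hw'
      nlinarith
    exact_mod_cast h1.trans (Nat.le_ceil _)
  -- the embedding
  have hlt : ∀ x : Fin m × Fin w, (x.1 : ℕ) * w + x.2 < m * w := by
    rintro ⟨c, g⟩
    have h1 : ((c : ℕ) + 1) * w ≤ m * w := Nat.mul_le_mul_right w c.2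
    have h2 : ((c : ℕ) + 1) * w = (c : ℕ) * w + w := by ring
    have h3 := g.2
    simp only
    omega
  let e : (Fin m × Fin w) ↪ Fin n :=
    ⟨fun x => ⟨(x.1 : ℕ) * w + x.2, (hlt x).trans_le hwn⟩, by
      rintro ⟨c, g⟩ ⟨c', g'⟩ h
      simp only [Fin.mk.injEq] at h
      have h1 : ((c : ℕ) * w + g) / w = c := by
        rw [mul_comm, Nat.mul_add_div hw0, Nat.div_eq_of_lt g.2, add_zero]
      have h2 : ((c' : ℕ) * w + g') / w = c' := by
        rw [mul_comm, Nat.mul_add_div hw0, Nat.div_eq_of_lt g'.2, add_zero]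
      have h3 : (c : ℕ) = c' := by rw [← h1, ← h2, h]
      have h4 : (g : ℕ) = g' := by
        rw [h3] at h
        omega
      exact Prod.ext (Fin.ext h3) (Fin.ext h4)⟩
  have he : ∀ c g, (e (c, g) : ℕ) = (c : ℕ) * w + g := fun c g => rfl
  let ω : Fin n → Fin m := fun p => ⟨min ((p : ℕ) / w) (m - 1), by
    have := min_le_right ((p : ℕ) / w) (m - 1)
    omega⟩
  have hωv : ∀ p, (ω p : ℕ) = min ((p : ℕ) / w) (m - 1) := fun p => rfl
  have hω : ∀ c g, ω (e (c, g)) = c := by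
    intro c g
    apply Fin.ext
    rw [hωv, he]
    have h1 : ((c : ℕ) * w + g) / w = c := by
      rw [mul_comm, Nat.mul_add_div hw0, Nat.div_eq_of_lt g.2, add_zero]
    rw [h1]
    have := c.2
    omega
  have hdist : ∀ p q : Fin n, (ω p : ℕ) ≤ ω q + 1 → (p : ℕ) - (q : ℕ) ≤ ⌈α * n⌉₊ := by
    intro p q h
    rw [hωv, hωv] at h
    exact (dist_le n m w p q hm hmw hnw p.2 h).trans ht
  have hmono : ∀ p q : Fin n, p ≤ q → (ω p : ℕ) ≤ ω q := by
    intro p q h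
    rw [hωv, hωv]
    exact min_le_min_right _ (Nat.div_le_div_right h)
  have hIa : ∀ C : Finset (Perm (Fin n)), UpSet ⌈α * n⌉₊ C →
      ∀ X : Perm (Fin n), ∀ u v, u < v → X v < X u → ω (X u) = ω (X v) →
        ind C X ≤ ind C (X * swap u v) := fun C hC X u v huv hX hw =>
    ind_swap _ C hC X u v huv hX (hdist _ _ (by rw [hw]; omega))
  have hIb : ∀ C : Finset (Perm (Fin n)), UpSet ⌈α * n⌉₊ C →
      ∀ X : Perm (Fin n), ∀ u v, u < v → (ω (X u) : ℕ) = ω (X v) + 1 →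
        ind C X ≤ ind C (X * swap u v) := by
    intro C hC X u v huv hw
    refine ind_swap _ C hC X u v huv ?_ (hdist _ _ (by rw [hw]))
    by_contra h
    have := hmono _ _ (not_lt.1 h)
    omega
  have hfac : (0 : ℝ) < (n.factorial : ℝ) := by exact_mod_cast n.factorial_pos
  have hEA : α ≤ 𝔼 X, ind A X := by
    rw [expect_ind, le_div_iff₀ hfac]; exact hcA
  have hEB : α ≤ 𝔼 X, ind B X := by
    rw [expect_ind, le_div_iff₀ hfac]; exact hcB
  have hc := core hm hn0 κ hκ hkey e ω hω hnw.le (ind A) (ind B) (ind_01 A) (ind_01 B)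
    (hIa A hA) (hIa B hB) (hIb A hA) (hIb B hB) (α ^ 2 / 2) (by positivity) ?_
  · have h1 : 𝔼 X, ind A X * ind B X = (#(A ∩ B) : ℝ) / (n.factorial : ℝ) := by
      rw [expect_congr rfl (fun X _ => ind_mul A B X), expect_ind]
    rw [h1, le_div_iff₀ hfac] at hc
    exact hc
  · have h1 : α * α ≤ (𝔼 X, ind A X) * (𝔼 X, ind B X) :=
      mul_le_mul hEA hEB hα.le (hα.le.trans hEA)
    have h2 : 17 * (m : ℝ) ^ 3 / n ≤ α ^ 2 / 2 := by
      rw [div_le_div_iff₀ hnR (by norm_num)]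
      linarith
    nlinarith

theorem main (α : ℝ) (hα : 0 < α) : ∃ β : ℝ, 0 < β ∧ ∀ n : ℕ, ∀ A B : Finset (Perm (Fin n)),
    UpSet ⌈α * n⌉₊ A → UpSet ⌈α * n⌉₊ B →
    α * (n.factorial : ℝ) ≤ #A → α * (n.factorial : ℝ) ≤ #B →
    β * (n.factorial : ℝ) ≤ #(A ∩ B) := by
  obtain ⟨m, hm, hmα⟩ : ∃ m : ℕ, 2 ≤ m ∧ 4 ≤ (m : ℝ) * α := by
    refine ⟨⌈4 / α⌉₊ + 2, by omega, ?_⟩
    have h1 : 4 / α ≤ (⌈4 / α⌉₊ : ℝ) := Nat.le_ceil _
    rw [div_le_iff₀ hα] at h1
    push_cast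
    nlinarith
  have hQ : 2 ≤ Fintype.card (Perm (Fin m)) := by
    rw [Fintype.card_perm, Fintype.card_fin]
    calc 2 = Nat.factorial 2 := rfl
      _ ≤ Nat.factorial m := Nat.factorial_le hm
  obtain ⟨κ, hκ, hkey⟩ := exists_kappa (Fintype.card (Perm (Fin m))) hQ
  set n0 : ℕ := max (m * m + m) ⌈34 * (m : ℝ) ^ 3 / α ^ 2⌉₊ with hn0
  have hfac0 : (0 : ℝ) < (n0.factorial : ℝ) := by exact_mod_cast n0.factorial_pos
  refine ⟨min ((α ^ 2 / 2) ^ κ) (1 / (n0.factorial : ℝ)), lt_min (by positivity) (by positivity),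
    fun n A B hA hB hcA hcB => ?_⟩
  have hfac : (0 : ℝ) < (n.factorial : ℝ) := by exact_mod_cast n.factorial_pos
  rcases Nat.lt_or_ge n n0 with hlt | hge
  · have hAne : A.Nonempty := by
      rw [← card_pos]
      have : (0 : ℝ) < #A := lt_of_lt_of_le (by positivity) hcA
      exact_mod_cast this
    have hBne : B.Nonempty := by
      rw [← card_pos]
      have : (0 : ℝ) < #B := lt_of_lt_of_le (by positivity) hcB
      exact_mod_cast this
    have ht : 0 < n → 1 ≤ ⌈α * n⌉₊ := by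
      intro h
      rw [Nat.one_le_ceil_iff]
      have : (0 : ℝ) < n := by exact_mod_cast h
      positivity
    have h1 : ((Tuple.sort (id : Fin n → Fin n))⁻¹)⁻¹ ∈ A ∩ B :=
      mem_inter.2 ⟨top_mem _ ht A hA hAne, top_mem _ ht B hB hBne⟩
    have h2 : 1 ≤ #(A ∩ B) := card_pos.2 ⟨_, h1⟩
    have h3 : (1 : ℝ) ≤ (#(A ∩ B) : ℝ) := by exact_mod_cast h2
    refine le_trans ?_ h3
    calc min ((α ^ 2 / 2) ^ κ) (1 / (n0.factorial : ℝ)) * (n.factorial : ℝ)
        ≤ (1 / (n0.factorial : ℝ)) * (n.factorial : ℝ) :=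
          mul_le_mul_of_nonneg_right (min_le_right _ _) hfac.le
      _ ≤ 1 := by
          rw [one_div_mul_eq_div, div_le_one hfac0]
          exact_mod_cast Nat.factorial_le hlt.le
  · have hn1 : m * m + m ≤ n := (le_max_left _ _).trans hge
    have hn2 : 34 * (m : ℝ) ^ 3 ≤ α ^ 2 * n := by
      have h1 : 34 * (m : ℝ) ^ 3 / α ^ 2 ≤ n := by
        calc 34 * (m : ℝ) ^ 3 / α ^ 2 ≤ (⌈34 * (m : ℝ) ^ 3 / α ^ 2⌉₊ : ℝ) := Nat.le_ceil _
          _ ≤ n := by exact_mod_cast (le_max_right _ _).trans hge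
      rw [div_le_iff₀ (by positivity)] at h1
      linarith
    refine le_trans ?_ (main_large α hα m hm hmα κ hκ hkey hn1 hn2 A B hA hB hcA hcB)
    exact mul_le_mul_of_nonneg_right (min_le_left _ _) hfac.le

end R769.TU
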