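import Pool.Agent.R769.TU.Avg

open Finset Equiv
open scoped BigOperators

namespace R769.TU

variable {n : ℕ}

theorem sq_expect_le {κ : Type*} (s : Finset κ) (f : κ → ℝ) :
    (𝔼 i ∈ s, f i) ^ 2 ≤ 𝔼 i ∈ s, f i ^ 2 := by
  rcases s.eq_empty_or_nonempty with rfl | hs
  · simp
  have h := expect_mul_sq_le_sq_mul_sq s f (fun _ => (1 : ℝ))
  simpa [expect_const hs] using h

theorem expect_mulLeft (s : Perm (Fin n)) (F : Perm (Fin n) → ℝ) :
    𝔼 X, F (s * X) = 𝔼 X, F X :=
  Fintype.expect_equiv (Equiv.mulLeft s) _ _ (fun _ => rfl)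

theorem expect_T {ι : Type*} [DecidableEq ι] (ω : Fin n → ι) (S : Finset (Fin n))
    (g : Perm (Fin n) → ℝ) : 𝔼 X, T ω S g X = 𝔼 X, g X := by
  unfold T
  rw [expect_comm]
  rw [expect_congr rfl (fun h _ => expect_mulLeft h g)]
  exact expect_const (HS_nonempty ω S) _

/-- Averaging over all permutations supported in `S`. -/
noncomputable def P (S : Finset (Fin n)) (g : Perm (Fin n) → ℝ) : Perm (Fin n) → ℝ :=
  T (fun _ : Fin n => ()) S g

theorem P_insert (S : Finset (Fin n)) (p : Fin n) (hp : p ∉ S) (g : Perm (Fin n) → ℝ)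
    (X : Perm (Fin n)) : P (insert p S) g X = 𝔼 q ∈ insert p S, P S g (swap p q * X) := by
  unfold P
  rw [T_insert _ S p hp]
  simp

theorem P_empty (g : Perm (Fin n) → ℝ) (X : Perm (Fin n)) : P ∅ g X = g X := by
  have h2 : HS (fun _ : Fin n => ()) (∅ : Finset (Fin n)) = {1} := by
    ext h
    rw [mem_singleton, mem_HS]
    constructor
    · intro hh
      ext p
      rw [hh.2 p (by simp)]
      rfl
    · rintro rfl
      simp
  unfold P T
  rw [h2]
  simp

theorem P_univ (g : Perm (Fin n) → ℝ) (X : Perm (Fin n)) : P univ g X = 𝔼 Y, g Y := by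
  have h2 : HS (fun _ : Fin n => ()) (univ : Finset (Fin n)) = univ := by
    ext h
    simp [mem_HS]
  unfold P T
  rw [h2]
  exact Fintype.expect_equiv (Equiv.mulRight X) _ _ (fun _ => rfl)

/-- The squared difference along the transposition `(p q)` of positions. -/
noncomputable def D (g : Perm (Fin n) → ℝ) (p q : Fin n) : ℝ :=
  𝔼 X, (g X - g (swap p q * X)) ^ 2

theorem D_nonneg (g : Perm (Fin n) → ℝ) (p q : Fin n) : 0 ≤ D g p q :=
  expect_nonneg fun _ _ => sq_nonneg _

theorem D_self (g : Perm (Fin n) → ℝ) (p : Fin n) : D g p p = 0 := by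
  unfold D
  refine expect_eq_zero fun X _ => ?_
  rw [swap_self]
  change (g X - g (1 * X)) ^ 2 = 0
  rw [one_mul, sub_self]
  norm_num

theorem D_comm (g : Perm (Fin n) → ℝ) (p q : Fin n) : D g p q = D g q p := by
  unfold D
  rw [swap_comm]

/-- The second moment of the average. -/
noncomputable def N (g : Perm (Fin n) → ℝ) (S : Finset (Fin n)) : ℝ := 𝔼 X, (P S g X) ^ 2

theorem N_step (g : Perm (Fin n) → ℝ) (S : Finset (Fin n)) (p : Fin n) (hp : p ∉ S) :
    N g S - N g (insert p S) ≤ 𝔼 q ∈ insert p S, D g p q := by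
  have hne : (insert p S).Nonempty := ⟨p, mem_insert_self _ _⟩
  have hcross : 𝔼 X, P (insert p S) g X * P S g X = N g (insert p S) := by
    unfold N
    have h1 : ∀ X, (P (insert p S) g X) ^ 2 =
        𝔼 q ∈ insert p S, P (insert p S) g (swap p q * X) * P S g (swap p q * X) := by
      intro X
      rw [sq]
      nth_rewrite 2 [P_insert S p hp g X]
      rw [mul_expect]
      refine expect_congr rfl fun q hq => ?_
      congr 1
      unfold P
      rw [T_inv]
      rw [mem_HS]
      refine ⟨fun _ => rfl, fun r hr => ?_⟩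
      refine swap_apply_of_ne_of_ne ?_ ?_
      · rintro rfl; exact hr (mem_insert_self _ _)
      · rintro rfl; exact hr hq
    rw [expect_congr rfl (fun X _ => h1 X), expect_comm]
    rw [expect_congr rfl (fun q _ => expect_mulLeft (swap p q)
      (fun X => P (insert p S) g X * P S g X))]
    exact (expect_const hne _).symm
  have h2 : N g S - N g (insert p S) = 𝔼 X, (P S g X - P (insert p S) g X) ^ 2 := by
    have : ∀ X, (P S g X - P (insert p S) g X) ^ 2 =
        (P S g X) ^ 2 + (P (insert p S) g X) ^ 2 - 2 * (P (insert p S) g X * P S g X) := by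
      intro X; ring
    rw [expect_congr rfl (fun X _ => this X), expect_sub_distrib, expect_add_distrib,
      ← mul_expect, hcross]
    unfold N
    ring
  rw [h2]
  have h3 : ∀ X, (P S g X - P (insert p S) g X) ^ 2 ≤
      𝔼 q ∈ insert p S, 𝔼 h ∈ HS (fun _ : Fin n => ()) S,
        (g (h * X) - g (swap p (h q) * (h * X))) ^ 2 := by
    intro X
    have h4 : P S g X - P (insert p S) g X =
        𝔼 q ∈ insert p S, (P S g X - P S g (swap p q * X)) := by
      rw [P_insert S p hp g X, expect_sub_distrib, expect_const hne]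
    rw [h4]
    refine (sq_expect_le _ _).trans (expect_le_expect fun q hq => ?_)
    have h5 : P S g X - P S g (swap p q * X) =
        𝔼 h ∈ HS (fun _ : Fin n => ()) S, (g (h * X) - g (swap p (h q) * (h * X))) := by
      unfold P T
      rw [← expect_sub_distrib]
      refine expect_congr rfl fun h hh => ?_
      have h6 : h * (swap p q * X) = swap p (h q) * (h * X) := by
        rw [← mul_assoc, ← mul_assoc, Equiv.mul_swap_eq_swap_mul, (mem_HS.1 hh).2 p hp]
      rw [h6]
    rw [h5]
    exact sq_expect_le _ _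
  refine (expect_le_expect fun X _ => h3 X).trans (le_of_eq ?_)
  rw [expect_comm]
  have h7 : ∀ q, 𝔼 X : Perm (Fin n), 𝔼 h ∈ HS (fun _ : Fin n => ()) S,
        (g (h * X) - g (swap p (h q) * (h * X))) ^ 2 =
      𝔼 h ∈ HS (fun _ : Fin n => ()) S, D g p (h q) := by
    intro q
    rw [expect_comm]
    refine expect_congr rfl fun h hh => ?_
    exact expect_mulLeft h (fun X => (g X - g (swap p (h q) * X)) ^ 2)
  rw [expect_congr rfl (fun q _ => h7 q), expect_comm]
  have h8 : ∀ h ∈ HS (fun _ : Fin n => ()) S,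
      𝔼 q ∈ insert p S, D g p (h q) = 𝔼 q ∈ insert p S, D g p q := by
    intro h hh
    have hmap : ∀ h' ∈ HS (fun _ : Fin n => ()) S, ∀ q ∈ insert p S, h' q ∈ insert p S := by
      intro h' hh' q hq
      rcases mem_insert.1 hq with rfl | hq
      · rw [(mem_HS.1 hh').2 _ hp]
        exact mem_insert_self _ _
      · exact mem_insert_of_mem (apply_mem_of_mem_HS hh' hq)
    refine expect_nbij' (fun q => h q) (fun q => h⁻¹ q) (hmap h hh) (hmap _ (inv_mem_HS hh))
      ?_ ?_ ?_
    · intro q _; exact inva h q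
    · intro q _; exact ainv h q
    · intro q _; rfl
  rw [expect_congr rfl h8, expect_const (HS_nonempty _ _)]

theorem sum_erase2 (D : Fin n → Fin n → ℝ) (hD : ∀ p, D p p = 0) (S : Finset (Fin n)) :
    ∑ p ∈ S, ∑ q ∈ S.erase p, ∑ r ∈ S.erase p, D q r =
      ((#S : ℝ) - 2) * ∑ q ∈ S, ∑ r ∈ S, D q r := by
  have h1 : ∀ p ∈ S, ∑ q ∈ S.erase p, ∑ r ∈ S.erase p, D q r =
      ∑ q ∈ S, ∑ r ∈ S, D q r - ∑ r ∈ S, D p r - ∑ q ∈ S, D q p := by
    intro p hp
    have h2 : ∀ q, ∑ r ∈ S.erase p, D q r = ∑ r ∈ S, D q r - D q p := fun q =>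
      sum_erase_eq_sub hp
    rw [sum_congr rfl (fun q _ => h2 q), sum_erase_eq_sub hp, sum_sub_distrib, hD p]
    ring
  rw [sum_congr rfl h1, sum_sub_distrib, sum_sub_distrib, sum_const, nsmul_eq_mul,
    sum_comm (f := fun p q => D q p)]
  ring

theorem poincare_aux (g : Perm (Fin n) → ℝ) : ∀ s : ℕ, ∀ S : Finset (Fin n), #S = s →
    (s : ℝ) * (N g ∅ - N g S) ≤ ∑ p ∈ S, ∑ q ∈ S, D g p q := by
  intro s
  induction s with
  | zero =>
    intro S hS
    rw [card_eq_zero] at hS
    subst hS
    simp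
  | succ s ih =>
    intro S hS
    set W2 := ∑ p ∈ S, ∑ q ∈ S, D g p q with hW
    have hW0 : 0 ≤ W2 := sum_nonneg fun p _ => sum_nonneg fun q _ => D_nonneg g p q
    have hstep : ∀ p ∈ S, N g (S.erase p) - N g S ≤ (∑ q ∈ S, D g p q) / (s + 1) := by
      intro p hp
      have h1 := N_step g (S.erase p) p (notMem_erase _ _)
      rw [insert_erase hp, expect_eq_sum_div_card, hS] at h1
      push_cast at h1
      exact h1
    have hcard : ∀ p ∈ S, #(S.erase p) = s := fun p hp => by
      rw [card_erase_of_mem hp, hS]; rfl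
    have hs1 : (0 : ℝ) < s + 1 := by positivity
    have hsum : (s : ℝ) * ((s + 1) * (N g ∅ - N g S)) ≤
        ((s : ℝ) + 1 - 2) * W2 + s * (W2 / (s + 1)) := by
      have h2 : ∀ p ∈ S, (s : ℝ) * (N g ∅ - N g S) ≤
          (∑ q ∈ S.erase p, ∑ r ∈ S.erase p, D g q r) +
            s * ((∑ q ∈ S, D g p q) / (s + 1)) := by
        intro p hp
        have h3 := ih (S.erase p) (hcard p hp)
        have h4 := mul_le_mul_of_nonneg_left (hstep p hp) (Nat.cast_nonneg (α := ℝ) s)
        linarith
      have h5 := sum_le_sum h2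
      rw [sum_const, hS, nsmul_eq_mul, sum_add_distrib, sum_erase2 (D g) (D_self g), hS,
        ← mul_sum, ← sum_div] at h5
      push_cast at h5
      linarith
    rcases Nat.eq_zero_or_pos s with h0 | hpos
    · subst h0
      obtain ⟨p, rfl⟩ := card_eq_one.1 hS
      have h6 := hstep p (by simp)
      have h7 : ({p} : Finset (Fin n)).erase p = ∅ := by simp
      rw [h7] at h6
      simp only [sum_singleton, D_self] at h6
      push_cast at h6 ⊢
      nlinarith
    · have hsp : (0 : ℝ) < s := by exact_mod_cast hpos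
      push_cast
      have h8 : ((s : ℝ) + 1 - 2) * W2 + s * (W2 / (s + 1)) ≤ s * W2 := by
        have h9 : (s : ℝ) * (W2 / (s + 1)) ≤ W2 := by
          rw [mul_div_assoc', div_le_iff₀ hs1]
          nlinarith
        linarith
      exact le_of_mul_le_mul_left (hsum.trans h8) hsp

/-- Poincaré inequality on the symmetric group. -/
theorem poincare (g : Perm (Fin n) → ℝ) :
    (n : ℝ) * (𝔼 X, g X ^ 2 - (𝔼 X, g X) ^ 2) ≤ ∑ p, ∑ q, D g p q := by
  have h := poincare_aux g n univ (by simp)
  have h1 : N g ∅ = 𝔼 X, g X ^ 2 := by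
    unfold N
    exact expect_congr rfl fun X _ => by rw [P_empty]
  have h2 : N g univ = (𝔼 X, g X) ^ 2 := by
    unfold N
    rw [expect_congr rfl (fun X _ => by rw [P_univ])]
    exact Fintype.expect_const _
  rw [h1, h2] at h
  exact h

end R769.TU
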