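import Pool.Agent.R769.TU.Act

open Finset Equiv
open scoped BigOperators

namespace R769.TU

variable {n m w : ℕ}

/-- the kernel `ξ` attached to a pair of positions -/
noncomputable def xi (e : (Fin m × Fin w) ↪ Fin n) (ω : Fin n → Fin m) (p q : Fin n)
    (k : Fin w → Perm (Fin m)) : ℝ :=
  1 - m * (if ω (act e k p) = ω (act e k q) then (1 : ℝ) else 0)

theorem U_diff (e : (Fin m × Fin w) ↪ Fin n) (ω : Fin n → Fin m) (a : Perm (Fin n) → ℝ)
    (hinv : ∀ h X : Perm (Fin n), (∀ p, ω (h p) = ω p) → a (h * X) = a X) (p q : Fin n)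
    (X : Perm (Fin n)) :
    U e a X - U e a (swap p q * X) =
      𝔼 k : Fin w → Perm (Fin m), xi e ω p q k * a (act e k * X) -
      𝔼 k : Fin w → Perm (Fin m), xi e ω p q k * a (act e k * (swap p q * X)) := by
  unfold U
  rw [← expect_sub_distrib, ← expect_sub_distrib]
  refine expect_congr rfl fun k _ => ?_
  unfold xi
  split_ifs with h
  · have h1 : act e k * (swap p q * X) = swap (act e k p) (act e k q) * (act e k * X) := by
      rw [← mul_assoc, ← mul_assoc, Equiv.mul_swap_eq_swap_mul]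
    have h2 : a (act e k * (swap p q * X)) = a (act e k * X) := by
      rw [h1]
      refine hinv _ _ fun r => ?_
      rw [swap_apply_def]
      split_ifs with h3 h4
      · rw [h3, h]
      · rw [h4, h]
      · rfl
    rw [h2]
    ring
  · ring

theorem D_U_le (e : (Fin m × Fin w) ↪ Fin n) (ω : Fin n → Fin m) (a : Perm (Fin n) → ℝ)
    (hinv : ∀ h X : Perm (Fin n), (∀ p, ω (h p) = ω p) → a (h * X) = a X) (p q : Fin n) :
    D (U e a) p q ≤
      4 * 𝔼 X, (𝔼 k : Fin w → Perm (Fin m), xi e ω p q k * a (act e k * X)) ^ 2 := by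
  set z : Perm (Fin n) → ℝ := fun X =>
    𝔼 k : Fin w → Perm (Fin m), xi e ω p q k * a (act e k * X) with hz
  have h1 : D (U e a) p q ≤ 𝔼 X, (2 * z X ^ 2 + 2 * z (swap p q * X) ^ 2) := by
    unfold D
    refine expect_le_expect fun X _ => ?_
    rw [U_diff e ω a hinv p q X]
    change (z X - z (swap p q * X)) ^ 2 ≤ _
    nlinarith [sq_nonneg (z X + z (swap p q * X))]
  rw [expect_add_distrib, ← mul_expect, ← mul_expect,
    expect_mulLeft (swap p q) (fun X => z X ^ 2)] at h1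
  linarith

theorem fam_bound {R : Type*} [DecidableEq R] (s : Finset R) (hm : 2 ≤ m)
    (e : (Fin m × Fin w) ↪ Fin n) (ω : Fin n → Fin m) (a : Perm (Fin n) → ℝ)
    (ha0 : ∀ X, 0 ≤ a X) (ha1 : ∀ X, a X ≤ 1)
    (hinv : ∀ h X : Perm (Fin n), (∀ p, ω (h p) = ω p) → a (h * X) = a X) (p q : R → Fin n)
    (horth : ∀ x ∈ s, ∀ y ∈ s, x ≠ y →
      𝔼 k : Fin w → Perm (Fin m), xi e ω (p x) (q x) k * xi e ω (p y) (q y) k = 0)
    (hnorm : ∀ x ∈ s, 𝔼 k : Fin w → Perm (Fin m), xi e ω (p x) (q x) k ^ 2 = (m : ℝ) - 1) :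
    ∑ x ∈ s, D (U e a) (p x) (q x) ≤ 4 * ((m : ℝ) - 1) := by
  have hM : (0 : ℝ) < (m : ℝ) - 1 := by
    have : (2 : ℝ) ≤ m := by exact_mod_cast hm
    linarith
  calc ∑ x ∈ s, D (U e a) (p x) (q x)
      ≤ ∑ x ∈ s, 4 * 𝔼 X, (𝔼 k : Fin w → Perm (Fin m),
          xi e ω (p x) (q x) k * a (act e k * X)) ^ 2 :=
        sum_le_sum fun x _ => D_U_le e ω a hinv _ _
    _ = 4 * 𝔼 X, ∑ x ∈ s, (𝔼 k : Fin w → Perm (Fin m),
          xi e ω (p x) (q x) k * a (act e k * X)) ^ 2 := by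
        rw [← mul_sum, expect_sum_comm]
    _ ≤ 4 * ((m : ℝ) - 1) := by
        refine mul_le_mul_of_nonneg_left (expect_le univ_nonempty fun X _ => ?_) (by norm_num)
        refine (bessel s (fun x => xi e ω (p x) (q x)) _ hM horth hnorm
          (fun k => a (act e k * X))).trans ?_
        have h1 : 𝔼 k : Fin w → Perm (Fin m), a (act e k * X) ^ 2 ≤ 1 :=
          expect_le univ_nonempty fun k _ => pow_le_one₀ (ha0 _) (ha1 _)
        calc ((m : ℝ) - 1) * _ ≤ ((m : ℝ) - 1) * 1 := mul_le_mul_of_nonneg_left h1 hM.le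
          _ = _ := mul_one _

theorem xi_ee (e : (Fin m × Fin w) ↪ Fin n) (ω : Fin n → Fin m)
    (hω : ∀ c g, ω (e (c, g)) = c) (c d : Fin m) (i j : Fin w) (k : Fin w → Perm (Fin m)) :
    xi e ω (e (c, i)) (e (d, j)) k = 1 - m * (if k i c = k j d then (1 : ℝ) else 0) := by
  unfold xi
  rw [act_apply, act_apply, hω, hω]

theorem xi_ne (e : (Fin m × Fin w) ↪ Fin n) (ω : Fin n → Fin m)
    (hω : ∀ c g, ω (e (c, g)) = c) (p : Fin n) (hp : p ∉ Set.range e) (d : Fin m) (j : Fin w)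
    (k : Fin w → Perm (Fin m)) :
    xi e ω p (e (d, j)) k = 1 - m * (if k j d = ω p then (1 : ℝ) else 0) := by
  unfold xi
  rw [act_apply, act_apply_not e k p hp, hω]
  simp only [eq_comm]

theorem single_mul_ne (i j : Fin w) (hij : j ≠ i) (τ : Perm (Fin m))
    (k : Fin w → Perm (Fin m)) : (Pi.mulSingle i τ * k : Fin w → Perm (Fin m)) j = k j := by
  rw [Pi.mul_apply, Pi.mulSingle_eq_of_ne hij, one_mul]

theorem fam1 (hm : 2 ≤ m)
    (e : (Fin m × Fin w) ↪ Fin n) (ω : Fin n → Fin m) (hω : ∀ c g, ω (e (c, g)) = c)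
    (a : Perm (Fin n) → ℝ)
    (ha0 : ∀ X, 0 ≤ a X) (ha1 : ∀ X, a X ≤ 1)
    (hinv : ∀ h X : Perm (Fin n), (∀ p, ω (h p) = ω p) → a (h * X) = a X) (c d : Fin m) :
    ∑ x ∈ (univ : Finset (Fin w × Fin w)).filter (fun x => x.1 < x.2),
      D (U e a) (e (c, x.1)) (e (d, x.2)) ≤ 4 * ((m : ℝ) - 1) := by
  refine fam_bound _ hm e ω a ha0 ha1 hinv (fun x : Fin w × Fin w => e (c, x.1))
    (fun x => e (d, x.2)) ?_ ?_
  · rintro ⟨i, j⟩ hx ⟨i', j'⟩ hy hne
    simp only [mem_filter, mem_univ, true_and] at hx hy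
    simp only [xi_ee e ω hω]
    by_cases h1 : i ≠ i' ∧ i ≠ j'
    · have := mean0 (by omega) i c (fun k => k j d)
        (fun k => 1 - m * (if k i' c = k j' d then (1 : ℝ) else 0))
        (fun k τ => by
          rw [single_mul_ne i j hx.ne' τ k])
        (fun k τ => by
          rw [single_mul_ne i i' h1.1.symm τ k, single_mul_ne i j' h1.2.symm τ k])
      exact Eq.trans (expect_congr rfl fun k _ => by ring) this
    · by_cases h2 : j ≠ i' ∧ j ≠ j'
      · have := mean0 (by omega) j d (fun k => k i c)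
          (fun k => 1 - m * (if k i' c = k j' d then (1 : ℝ) else 0))
          (fun k τ => by
            rw [single_mul_ne j i hx.ne τ k])
          (fun k τ => by
            rw [single_mul_ne j i' h2.1.symm τ k, single_mul_ne j j' h2.2.symm τ k])
        refine Eq.trans (expect_congr rfl fun k _ => ?_) this
        simp only [eq_comm (a := k j d)]
        ring
      · exfalso
        apply hne
        rw [Prod.mk.injEq]
        have h3 : i = i' ∨ i = j' := by
          by_contra h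
          push Not at h
          exact h1 h
        have h4 : j = i' ∨ j = j' := by
          by_contra h
          push Not at h
          exact h2 h
        rcases h3 with rfl | rfl
        · rcases h4 with rfl | rfl
          · exact absurd hx (lt_irrefl _)
          · exact ⟨rfl, rfl⟩
        · rcases h4 with rfl | rfl
          · exact absurd (hx.trans hy) (lt_irrefl _)
          · exact absurd hx (lt_irrefl _)
  · rintro ⟨i, j⟩ hx
    simp only [mem_filter, mem_univ, true_and] at hx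
    simp only [xi_ee e ω hω]
    exact norm_xi (by omega) i c (fun k => k j d) (fun k τ => by
      rw [single_mul_ne i j hx.ne' τ k])

theorem fam2 (hm : 2 ≤ m)
    (e : (Fin m × Fin w) ↪ Fin n) (ω : Fin n → Fin m) (hω : ∀ c g, ω (e (c, g)) = c)
    (a : Perm (Fin n) → ℝ)
    (ha0 : ∀ X, 0 ≤ a X) (ha1 : ∀ X, a X ≤ 1)
    (hinv : ∀ h X : Perm (Fin n), (∀ p, ω (h p) = ω p) → a (h * X) = a X)
    (p : Fin n) (hp : p ∉ Set.range e) (d : Fin m) :
    ∑ j : Fin w, D (U e a) p (e (d, j)) ≤ 4 * ((m : ℝ) - 1) := by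
  refine fam_bound _ hm e ω a ha0 ha1 hinv (fun _ : Fin w => p)
    (fun j => e (d, j)) ?_ ?_
  · intro j _ j' _ hne
    simp only [xi_ne e ω hω p hp]
    have := mean0 (by omega) j d (fun _ => ω p)
      (fun k => 1 - m * (if k j' d = ω p then (1 : ℝ) else 0))
      (fun k τ => rfl)
      (fun k τ => by
        rw [single_mul_ne j j' hne.symm τ k])
    exact Eq.trans (expect_congr rfl fun k _ => by ring) this
  · intro j _
    simp only [xi_ne e ω hω p hp]
    exact norm_xi (by omega) j d (fun _ => ω p) (fun k τ => rfl)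

theorem U_mem (e : (Fin m × Fin w) ↪ Fin n) (a : Perm (Fin n) → ℝ)
    (ha0 : ∀ X, 0 ≤ a X) (ha1 : ∀ X, a X ≤ 1) (X : Perm (Fin n)) :
    0 ≤ U e a X ∧ U e a X ≤ 1 :=
  ⟨expect_nonneg fun _ _ => ha0 _, expect_le univ_nonempty fun _ _ => ha1 _⟩

theorem D_le_one (g : Perm (Fin n) → ℝ) (hg : ∀ X, 0 ≤ g X ∧ g X ≤ 1) (p q : Fin n) :
    D g p q ≤ 1 := by
  unfold D
  refine expect_le univ_nonempty fun X _ => ?_
  have h1 := hg X
  have h2 := hg (swap p q * X)
  nlinarith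

theorem D_same (e : (Fin m × Fin w) ↪ Fin n) (a : Perm (Fin n) → ℝ) (c d : Fin m) (i : Fin w) :
    D (U e a) (e (c, i)) (e (d, i)) = 0 := by
  unfold D
  refine expect_eq_zero fun X _ => ?_
  have h1 : U e a (swap (e (c, i)) (e (d, i)) * X) = U e a X := by
    rw [← act_swap]
    unfold U
    refine Fintype.expect_equiv (Equiv.mulRight (Pi.mulSingle i (swap c d))) _ _ fun k => ?_
    rw [← mul_assoc, ← act_mul]
    rfl
  rw [h1, sub_self]
  norm_num

theorem sum_split (e : (Fin m × Fin w) ↪ Fin n) (F : Fin n → ℝ) :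
    ∑ p, F p = ∑ x, F (e x) + ∑ p ∈ (univ.map e)ᶜ, F p := by
  rw [← sum_add_sum_compl (univ.map e) F, sum_map]

/-- the sum over two different groups -/
theorem sum_two (hm : 2 ≤ m)
    (e : (Fin m × Fin w) ↪ Fin n) (ω : Fin n → Fin m) (hω : ∀ c g, ω (e (c, g)) = c)
    (a : Perm (Fin n) → ℝ)
    (ha0 : ∀ X, 0 ≤ a X) (ha1 : ∀ X, a X ≤ 1)
    (hinv : ∀ h X : Perm (Fin n), (∀ p, ω (h p) = ω p) → a (h * X) = a X) (c d : Fin m) :
    ∑ i : Fin w, ∑ j : Fin w, D (U e a) (e (c, i)) (e (d, j)) ≤ 8 * ((m : ℝ) - 1) := by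
  rw [← sum_product', univ_product_univ]
  have h1 := sum_filter_add_sum_filter_not (univ : Finset (Fin w × Fin w)) (fun x => x.1 < x.2)
    (fun x => D (U e a) (e (c, x.1)) (e (d, x.2)))
  rw [← h1]
  have h2 := fam1 hm e ω hω a ha0 ha1 hinv c d
  have h3 := fam1 hm e ω hω a ha0 ha1 hinv d c
  have h4 : ∑ x ∈ (univ : Finset (Fin w × Fin w)).filter (fun x => ¬ x.1 < x.2),
      D (U e a) (e (c, x.1)) (e (d, x.2)) =
      ∑ x ∈ (univ : Finset (Fin w × Fin w)).filter (fun x => x.1 < x.2),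
      D (U e a) (e (d, x.1)) (e (c, x.2)) := by
    have h5 : ∑ x ∈ (univ : Finset (Fin w × Fin w)).filter (fun x => x.1 < x.2),
        D (U e a) (e (d, x.1)) (e (c, x.2)) =
        ∑ x ∈ (univ : Finset (Fin w × Fin w)).filter (fun x => x.2 < x.1),
        D (U e a) (e (c, x.1)) (e (d, x.2)) := by
      refine sum_nbij' (fun x => (x.2, x.1)) (fun x => (x.2, x.1)) ?_ ?_ ?_ ?_ ?_
      · intro x hx
        simpa using hx
      · intro x hx
        simpa using hx
      · intro x _; rfl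
      · intro x _; rfl
      · intro x _
        exact D_comm _ _ _
    rw [h5]
    symm
    refine sum_subset ?_ ?_
    · intro x hx
      simp only [mem_filter, mem_univ, true_and] at hx ⊢
      exact not_lt.2 hx.le
    · intro x hx hx'
      simp only [mem_filter, mem_univ, true_and, not_lt] at hx hx'
      have : x.1 = x.2 := le_antisymm hx' hx
      rw [this]
      exact D_same e a c d x.2
  rw [h4]
  linarith

theorem total (hm : 2 ≤ m)
    (e : (Fin m × Fin w) ↪ Fin n) (ω : Fin n → Fin m) (hω : ∀ c g, ω (e (c, g)) = c)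
    (hn : n ≤ m * w + m) (a : Perm (Fin n) → ℝ)
    (ha0 : ∀ X, 0 ≤ a X) (ha1 : ∀ X, a X ≤ 1)
    (hinv : ∀ h X : Perm (Fin n), (∀ p, ω (h p) = ω p) → a (h * X) = a X) :
    ∑ p, ∑ q, D (U e a) p q ≤ 17 * (m : ℝ) ^ 3 := by
  set L : Finset (Fin n) := (univ.map e)ᶜ with hL
  have hLcard : (#L : ℝ) ≤ m := by
    have h1 : #L = n - m * w := by
      rw [hL, card_compl, card_map, card_univ, Fintype.card_prod, Fintype.card_fin,
        Fintype.card_fin, Fintype.card_fin]
    have h2 : #L ≤ m := by rw [h1]; omega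
    exact_mod_cast h2
  have hL0 : (0 : ℝ) ≤ #L := Nat.cast_nonneg _
  have hLr : ∀ p ∈ L, p ∉ Set.range e := by
    intro p hp
    rw [hL, mem_compl, mem_map] at hp
    rintro ⟨x, rfl⟩
    exact hp ⟨x, mem_univ _, rfl⟩
  have hm2 : (2 : ℝ) ≤ m := by exact_mod_cast hm
  have h1 : ∑ x : Fin m × Fin w, ∑ y : Fin m × Fin w, D (U e a) (e x) (e y) ≤
      8 * (m : ℝ) ^ 2 * (m - 1) := by
    have h2 : ∑ x : Fin m × Fin w, ∑ y : Fin m × Fin w, D (U e a) (e x) (e y) =
        ∑ c : Fin m, ∑ d : Fin m, ∑ i : Fin w, ∑ j : Fin w, D (U e a) (e (c, i)) (e (d, j)) := by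
      rw [Fintype.sum_prod_type]
      refine sum_congr rfl fun c _ => ?_
      rw [sum_comm]
      rw [Fintype.sum_prod_type]
      refine sum_congr rfl fun d _ => ?_
      rw [sum_comm]
    rw [h2]
    calc _ ≤ ∑ c : Fin m, ∑ d : Fin m, 8 * ((m : ℝ) - 1) :=
          sum_le_sum fun c _ => sum_le_sum fun d _ => sum_two hm e ω hω a ha0 ha1 hinv c d
      _ = _ := by
          simp only [sum_const, card_univ, Fintype.card_fin, nsmul_eq_mul]
          ring
  have h2 : ∑ p ∈ L, ∑ y : Fin m × Fin w, D (U e a) p (e y) ≤ 4 * (m : ℝ) ^ 2 * (m - 1) := by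
    have h3 : ∀ p ∈ L, ∑ y : Fin m × Fin w, D (U e a) p (e y) ≤ m * (4 * ((m : ℝ) - 1)) := by
      intro p hp
      rw [Fintype.sum_prod_type]
      calc _ ≤ ∑ d : Fin m, 4 * ((m : ℝ) - 1) :=
            sum_le_sum fun d _ => fam2 hm e ω hω a ha0 ha1 hinv p (hLr p hp) d
        _ = _ := by simp only [sum_const, card_univ, Fintype.card_fin, nsmul_eq_mul]
    calc _ ≤ ∑ p ∈ L, m * (4 * ((m : ℝ) - 1)) := sum_le_sum h3
      _ = (#L : ℝ) * (m * (4 * ((m : ℝ) - 1))) := by rw [sum_const, nsmul_eq_mul]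
      _ ≤ (m : ℝ) * (m * (4 * ((m : ℝ) - 1))) :=
          mul_le_mul_of_nonneg_right hLcard (by nlinarith)
      _ = _ := by ring
  have h3 : ∑ x : Fin m × Fin w, ∑ q ∈ L, D (U e a) (e x) q ≤ 4 * (m : ℝ) ^ 2 * (m - 1) := by
    rw [sum_comm]
    refine le_trans (le_of_eq ?_) h2
    exact sum_congr rfl fun p _ => sum_congr rfl fun x _ => D_comm _ _ _
  have h4 : ∑ p ∈ L, ∑ q ∈ L, D (U e a) p q ≤ (m : ℝ) ^ 2 := by
    calc _ ≤ ∑ p ∈ L, ∑ q ∈ L, (1 : ℝ) :=
          sum_le_sum fun p _ => sum_le_sum fun q _ => D_le_one _ (U_mem e a ha0 ha1) p q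
      _ = (#L : ℝ) * #L := by simp
      _ ≤ (m : ℝ) * m := mul_le_mul hLcard hLcard hL0 (by linarith)
      _ = _ := by ring
  have h5 : ∑ p, ∑ q, D (U e a) p q =
      (∑ x : Fin m × Fin w, ∑ y : Fin m × Fin w, D (U e a) (e x) (e y) +
        ∑ x : Fin m × Fin w, ∑ q ∈ L, D (U e a) (e x) q) +
      (∑ p ∈ L, ∑ y : Fin m × Fin w, D (U e a) p (e y) +
        ∑ p ∈ L, ∑ q ∈ L, D (U e a) p q) := by
    rw [sum_split e, ← sum_add_distrib, ← sum_add_distrib]
    congr 1
    · exact sum_congr rfl fun x _ => sum_split e _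
    · exact sum_congr rfl fun x _ => sum_split e _
  rw [h5]
  have h6 : (0 : ℝ) ≤ (m : ℝ) ^ 2 := by positivity
  nlinarith

theorem var_bound (hm : 2 ≤ m)
    (e : (Fin m × Fin w) ↪ Fin n) (ω : Fin n → Fin m) (hω : ∀ c g, ω (e (c, g)) = c)
    (hn : n ≤ m * w + m) (a : Perm (Fin n) → ℝ)
    (ha0 : ∀ X, 0 ≤ a X) (ha1 : ∀ X, a X ≤ 1)
    (hinv : ∀ h X : Perm (Fin n), (∀ p, ω (h p) = ω p) → a (h * X) = a X) :
    (n : ℝ) * (𝔼 X, U e a X ^ 2 - (𝔼 X, a X) ^ 2) ≤ 17 * (m : ℝ) ^ 3 := by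
  have h := (poincare (U e a)).trans (total hm e ω hω hn a ha0 ha1 hinv)
  rwa [expect_U] at h

end R769.TU
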